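import Pool.Agent.J4H45.HC.Main

/-!
# The theorem for the concrete classes of factors
-/

set_option autoImplicit false

open Set

namespace Pool.Agent.J4H45.HC

/-- Euclidean space -/
abbrev E (d : ℕ) : Type := EuclideanSpace ℝ (Fin d)

/-- `C` is a compact convex set in `ℝ^n` which either has at most `h + 1` vertices, or is smooth
outside of the convex hull of `h - n` of its points -/
def Factor {n : ℕ} (C : Set (E n)) (h : ℕ) : Prop :=
  IsCompact C ∧ Convex ℝ C ∧
    ((∃ p : Fin (h + 1) → E n, C = convexHull ℝ (range p)) ∨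
      ∃ (b : ℕ) (q : Fin b → E n), h = n + b ∧ (∀ j, q j ∈ C) ∧ SmoothOutside C (range q))

/-- `K` is covered by at most `N` translates of its interior -/
def CoveredBy {d : ℕ} (K : Set (E d)) (N : ℕ) : Prop :=
  ∃ T : Finset (E d), T.card ≤ N ∧ K ⊆ ⋃ t ∈ T, (fun z => t + z) '' interior K

theorem factor_up {n : ℕ} {C : Set (E n)} {h : ℕ} (hC : Factor C h) (hint : (interior C).Nonempty)
    {φ : E n →L[ℝ] ℝ} (hφ : φ ≠ 0) : Up C φ h := by
  obtain ⟨hc, hconv, ⟨p, rfl⟩ | ⟨b, q, rfl, hq, hs⟩⟩ := hC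
  · exact up_of_hull p hint hφ
  · exact hs.up hq hconv hc hint hφ (by simp)

theorem factor_all {n : ℕ} (hn : 1 ≤ n) {C : Set (E n)} {h : ℕ} (hC : Factor C h)
    (hint : (interior C).Nonempty) : All C h := by
  obtain ⟨hc, hconv, ⟨p, rfl⟩ | ⟨b, q, rfl, hq, hs⟩⟩ := hC
  · refine all_of_hull ?_ p hint
    by_contra h0
    have h1 : h = 0 := by omega
    subst h1
    have h2 : range p = {p 0} := by
      ext x
      simp [Fin.exists_fin_one, eq_comm]
    rw [h2, convexHull_singleton] at hint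
    have : Nonempty (Fin n) := ⟨⟨0, hn⟩⟩
    have : Nontrivial (E n) := inferInstance
    rw [interior_singleton] at hint
    exact Set.not_nonempty_empty hint
  · exact hs.all hq hconv hint (by simp) hn

theorem covered {d r : ℕ} (n h : Fin r → ℕ) (hn : ∀ i, 1 ≤ n i) (hsum : ∑ i, n i = d + 1)
    (l : ∀ i, E d →ₗ[ℝ] E (n i)) (hl : ∀ i, Function.Surjective (l i))
    (C : ∀ i, Set (E (n i))) (hC : ∀ i, Factor (C i) (h i))
    {K : Set (E d)} (hK : K = ⋂ i, l i ⁻¹' C i) (hKc : IsCompact K)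
    (hKi : (interior K).Nonempty) : CoveredBy K (2 ^ (r - 1) * ∏ i, h i) := by
  classical
  let L : ∀ i, E d →L[ℝ] E (n i) := fun i => LinearMap.toContinuousLinearMap (l i)
  have hL : ∀ i, Function.Surjective (L i) := hl
  have hK' : K = ⋂ i, L i ⁻¹' C i := hK
  have hint : ∀ i, (interior (C i)).Nonempty := by
    intro i
    obtain ⟨x0, hx0⟩ := hKi
    have hop : IsOpen (L i '' interior K) := (L i).isOpenMap (hL i) _ isOpen_interior
    have hsub : L i '' interior K ⊆ C i := by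
      rintro _ ⟨x, hx, rfl⟩
      have := interior_subset hx
      rw [hK'] at this
      exact mem_iInter.1 this i
    exact ⟨_, interior_maximal hsub hop ⟨x0, hx0, rfl⟩⟩
  obtain ⟨T, hT, hcov⟩ := main L hL (by simpa using hsum) C (fun i => (hC i).2.1)
    (fun i => (hC i).1) h (fun i φ hφ => factor_up (hC i) (hint i) hφ)
    (fun i => factor_all (hn i) (hC i) (hint i)) hK' hKc hKi
  exact ⟨T, by simpa using hT, hcov⟩

theorem bound_le {d r : ℕ} (n h : Fin r → ℕ) (hn : ∀ i, 1 ≤ n i) (hsum : ∑ i, n i = d + 1)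
    (hh : ∀ i, h i ≤ 2 ^ (n i - 1)) : 2 ^ (r - 1) * ∏ i, h i ≤ 2 ^ d := by
  have hr : 1 ≤ r := by
    by_contra h0
    have : r = 0 := by omega
    subst this
    simp at hsum
  have h1 : ∏ i, h i ≤ 2 ^ (∑ i, (n i - 1)) := by
    rw [← Finset.prod_pow_eq_pow_sum]
    exact Finset.prod_le_prod' fun i _ => hh i
  have h2 : ∑ i, (n i - 1) + r = d + 1 := by
    rw [← hsum]
    have h3 : ∑ i, n i = ∑ i : Fin r, ((n i - 1) + 1) :=
      Finset.sum_congr rfl fun i _ => by have := hn i; omega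
    rw [h3, Finset.sum_add_distrib]
    simp
  calc 2 ^ (r - 1) * ∏ i, h i ≤ 2 ^ (r - 1) * 2 ^ (∑ i, (n i - 1)) := Nat.mul_le_mul_left _ h1
    _ = 2 ^ d := by rw [← pow_add]; congr 1; omega

end Pool.Agent.J4H45.HC
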