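import Mathlib

/-!
# Illumination of convex bodies: basic facts

`Ill C x w`: from the point `x` one gets into the interior of `C` by moving a little in the
direction `w`.
-/

set_option autoImplicit false

open Set Filter Topology

namespace Pool.Agent.J4H45.HC

variable {E : Type*} [NormedAddCommGroup E] [NormedSpace ℝ E]

/-- from `x` the direction `w` leads into the interior of `C` -/
def Ill (C : Set E) (x w : E) : Prop := ∃ ε : ℝ, 0 < ε ∧ x + ε • w ∈ interior C

theorem Ill.smul {C : Set E} {x w : E} (h : Ill C x w) {a : ℝ} (ha : 0 < a) : Ill C x (a • w) := by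
  obtain ⟨ε, he, hx⟩ := h
  refine ⟨ε / a, div_pos he ha, ?_⟩
  rwa [smul_smul, div_mul_cancel₀ _ ha.ne']

theorem ill_of_interior {C : Set E} {x : E} (hx : x ∈ interior C) (w : E) : Ill C x w := by
  have hc : Tendsto (fun ε : ℝ => x + ε • w) (𝓝[>] 0) (𝓝 x) := by
    have : Continuous fun ε : ℝ => x + ε • w := by fun_prop
    have h := this.tendsto 0
    simp only [zero_smul, add_zero] at h
    exact h.mono_left nhdsWithin_le_nhds
  have h1 : ∀ᶠ ε : ℝ in 𝓝[>] 0, x + ε • w ∈ interior C := hc (isOpen_interior.mem_nhds hx)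
  obtain ⟨ε, h2, h3⟩ := (h1.and self_mem_nhdsWithin).exists
  exact ⟨ε, h3, h2⟩

theorem Ill.mono {C : Set E} (hC : Convex ℝ C) {x w : E} (hx : x ∈ C) {ε : ℝ}
    (h : x + ε • w ∈ interior C) {η : ℝ} (h0 : 0 < η) (h1 : η ≤ ε) : x + η • w ∈ interior C := by
  have he : 0 < ε := h0.trans_le h1
  have := hC.combo_self_interior_mem_interior hx h (a := 1 - η / ε) (b := η / ε)
    (sub_nonneg.2 ((div_le_one he).2 h1)) (div_pos h0 he) (by ring)
  convert this using 1
  have h2 : (η / ε) * ε = η := div_mul_cancel₀ _ he.ne'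
  rw [smul_add, smul_smul, h2, ← add_assoc, ← add_smul]
  simp

/-- illumination is an open condition -/
theorem Ill.eventually {C : Set E} {x w : E} (h : Ill C x w) :
    ∀ᶠ p : E × E in 𝓝 (x, w), Ill C p.1 p.2 := by
  obtain ⟨ε, he, hx⟩ := h
  have hc : Continuous fun p : E × E => p.1 + ε • p.2 := by fun_prop
  have h1 : ∀ᶠ p : E × E in 𝓝 (x, w), p.1 + ε • p.2 ∈ interior C :=
    hc.continuousAt (isOpen_interior.mem_nhds hx)
  exact h1.mono fun p hp => ⟨ε, he, hp⟩

/-- a finite family of directions which illuminates a compact convex set gives a covering by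
translates of the interior -/
theorem cover {K : Set E} (hK : Convex ℝ K) (hc : IsCompact K) {ι : Type*} [Fintype ι] (v : ι → E)
    (h : ∀ x ∈ K, ∃ i, Ill K x (v i)) :
    ∃ T : Finset E, T.card ≤ Fintype.card ι ∧ K ⊆ ⋃ t ∈ T, (fun z => t + z) '' interior K := by
  classical
  have key : ∀ᶠ η : ℝ in 𝓝 0, ∀ x ∈ K, 0 < η → x ∈ K → ∃ i, x + η • v i ∈ interior K := by
    refine hc.eventually_forall_of_forall_eventually
      (P := fun η x => 0 < η → x ∈ K → ∃ i, x + η • v i ∈ interior K) fun x hx => ?_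
    obtain ⟨i, ε, he, hi⟩ := h x hx
    have h1 : ∀ᶠ z : ℝ × E in 𝓝 ((0 : ℝ), x), z.2 + ε • v i ∈ interior K := by
      have hcont : Continuous fun z : ℝ × E => z.2 + ε • v i := by fun_prop
      exact hcont.continuousAt (isOpen_interior.mem_nhds hi)
    have h2 : ∀ᶠ z : ℝ × E in 𝓝 ((0 : ℝ), x), z.1 < ε := by
      have hcont : Continuous fun z : ℝ × E => z.1 := by fun_prop
      exact hcont.continuousAt.eventually (Iio_mem_nhds he)
    filter_upwards [h1, h2] with z h3 h4 h5 h6
    exact ⟨i, Ill.mono hK h6 h3 h5 h4.le⟩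
  obtain ⟨η, h1, h2⟩ := ((key.filter_mono nhdsWithin_le_nhds).and
    (self_mem_nhdsWithin : Ioi (0 : ℝ) ∈ 𝓝[>] 0)).exists
  refine ⟨Finset.univ.image fun i => -(η • v i), Finset.card_image_le.trans (by simp), ?_⟩
  intro x hx
  obtain ⟨i, hi⟩ := h1 x hx h2 hx
  refine mem_iUnion₂.2 ⟨-(η • v i), Finset.mem_image.2 ⟨i, Finset.mem_univ _, rfl⟩, ?_⟩
  exact ⟨x + η • v i, hi, by simp⟩

theorem lt_of_mem_interior {C : Set E} {f : E →L[ℝ] ℝ} (hf : f ≠ 0) {m : ℝ}
    (h : ∀ c ∈ C, f c ≤ m) {z : E} (hz : z ∈ interior C) : f z < m := by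
  obtain ⟨v, hv⟩ : ∃ v, 0 < f v := by
    by_contra hcon
    push Not at hcon
    apply hf
    ext v
    have h1 := hcon v
    have h2 := hcon (-v)
    simp only [map_neg] at h2
    simp only [zero_apply]
    linarith
  obtain ⟨ε, he, hx⟩ := ill_of_interior hz v
  have := h _ (interior_subset hx)
  simp only [map_add, map_smul, smul_eq_mul] at this
  nlinarith [mul_pos he hv]

theorem Ill.neg {C : Set E} {x w : E} (h : Ill C x w) {f : E →L[ℝ] ℝ} (hf : f ≠ 0)
    (hs : ∀ c ∈ C, f c ≤ f x) : f w < 0 := by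
  obtain ⟨ε, he, hx⟩ := h
  have := lt_of_mem_interior hf hs hx
  simp only [map_add, map_smul, smul_eq_mul] at this
  by_contra hcon
  push Not at hcon
  nlinarith [mul_nonneg he.le hcon]

/-- `C` is *smooth outside of the hull of `F`* if it has only one supporting hyperplane at each of
its boundary points outside of the convex hull of `F`: any two nonzero linear functionals which
attain their maximum over `C` at the same such point are positive multiples of each other -/
def SmoothOutside (C F : Set E) : Prop :=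
  ∀ x ∈ C, x ∉ convexHull ℝ F → ∀ f g : E →L[ℝ] ℝ, f ≠ 0 → g ≠ 0 → (∀ c ∈ C, f c ≤ f x) →
    (∀ c ∈ C, g c ≤ g x) → ∃ a : ℝ, 0 < a ∧ f = a • g

/-- at a smooth boundary point there is a supporting functional such that all directions
in which it decreases lead into the interior -/
theorem SmoothOutside.exists_functional {C F : Set E} (hs : SmoothOutside C F) (hC : Convex ℝ C)
    (hint : (interior C).Nonempty) {x : E} (hx : x ∈ C) (hxF : x ∉ convexHull ℝ F)
    (hb : x ∉ interior C) :
    ∃ f : E →L[ℝ] ℝ, f ≠ 0 ∧ (∀ c ∈ C, f c ≤ f x) ∧ ∀ w, f w < 0 → Ill C x w := by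
  obtain ⟨z, hz⟩ := hint
  have hcl : C ⊆ closure (interior C) := by
    rw [hC.closure_interior_eq_closure_of_nonempty_interior ⟨z, hz⟩]
    exact subset_closure
  obtain ⟨f, hf⟩ := geometric_hahn_banach_open_point hC.interior isOpen_interior hb
  have hf0 : f ≠ 0 := by
    rintro rfl
    simpa using hf z hz
  have hfs : ∀ c ∈ C, f c ≤ f x := fun c hc => by
    have hclosed : IsClosed {c : E | f c ≤ f x} := isClosed_le f.continuous continuous_const
    exact (closure_minimal (fun a ha => (hf a ha).le) hclosed) (hcl hc)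
  refine ⟨f, hf0, hfs, fun w hw => ?_⟩
  by_contra hcon
  have hdisj : Disjoint (interior C) ((fun ε : ℝ => x + ε • w) '' Ioi 0) := by
    rw [Set.disjoint_left]
    rintro _ h1 ⟨ε, he, rfl⟩
    exact hcon ⟨ε, he, h1⟩
  have hconv : Convex ℝ ((fun ε : ℝ => x + ε • w) '' Ioi 0) := by
    rintro _ ⟨s, hs1, rfl⟩ _ ⟨t, ht1, rfl⟩ a b ha hb' hab
    refine ⟨a * s + b * t, ?_, ?_⟩
    · simp only [mem_Ioi] at hs1 ht1 ⊢
      rcases ha.eq_or_lt with h | h
      · have : b = 1 := by linarith
        rw [← h, this]; simpa using ht1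
      · nlinarith [mul_pos h hs1, mul_nonneg hb' ht1.le]
    · simp only [smul_add, add_smul, mul_smul]
      have : x = a • x + b • x := by rw [← add_smul, hab, one_smul]
      conv_lhs => rw [this]
      abel
  obtain ⟨g, u, h1, h2⟩ := geometric_hahn_banach_open hC.interior isOpen_interior hconv hdisj
  have hg0 : g ≠ 0 := by
    rintro rfl
    have h3 := h1 z hz
    have h4 := h2 _ ⟨1, by simp, rfl⟩
    simp at h3 h4
    linarith
  have h3 : ∀ ε : ℝ, 0 < ε → u ≤ g x + ε * g w := fun ε he => by
    have := h2 _ ⟨ε, he, rfl⟩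
    simpa using this
  have hux : u ≤ g x := by
    by_contra hlt
    push Not at hlt
    have h5 := h3 ((u - g x) / (2 * (|g w| + 1))) (by
      have : 0 ≤ |g w| := abs_nonneg _
      positivity [sub_pos.2 hlt])
    have h6 : (u - g x) / (2 * (|g w| + 1)) * g w ≤ (u - g x) / 2 := by
      have h7 : g w ≤ |g w| + 1 := (le_abs_self _).trans (by linarith)
      have h8 : 0 < |g w| + 1 := by have := abs_nonneg (g w); linarith
      calc (u - g x) / (2 * (|g w| + 1)) * g w
          ≤ (u - g x) / (2 * (|g w| + 1)) * (|g w| + 1) := by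
            apply mul_le_mul_of_nonneg_left h7
            have := sub_pos.2 hlt
            positivity
        _ = (u - g x) / 2 := by field_simp
    linarith
  have hgs : ∀ c ∈ C, g c ≤ g x := fun c hc => by
    have hclosed : IsClosed {c : E | g c ≤ u} := isClosed_le g.continuous continuous_const
    have h5 : g c ≤ u := (closure_minimal (fun a ha => (h1 a ha).le) hclosed) (hcl hc)
    exact h5.trans hux
  have hxu : g x ≤ u := by
    have hclosed : IsClosed {c : E | g c ≤ u} := isClosed_le g.continuous continuous_const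
    exact (closure_minimal (fun a ha => (h1 a ha).le) hclosed) (hcl hx)
  obtain ⟨a, ha, hfa⟩ := hs x hx hxF f g hf0 hg0 hfs hgs
  have h9 := h3 1 one_pos
  have h10 : 0 ≤ g w := by linarith
  rw [hfa] at hw
  simp only [FunLike.coe_smul, Pi.smul_apply, smul_eq_mul] at hw
  nlinarith [mul_nonneg ha.le h10]

end Pool.Agent.J4H45.HC
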