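import Pool.Agent.J4H45.HC.Ill

/-!
# Upward directions

`Up C φ h`: for every `δ > 0` there are `h` directions on which the functional `φ` is `1` such that
each point of `C`, except those at which `φ` is nearly maximal, is illuminated by one of them. This
holds for smooth bodies of dimension `h` and for convex hulls of `h + 1` points.
-/

set_option autoImplicit false

open Set Filter Topology

namespace Pool.Agent.J4H45.HC

variable {E : Type*} [NormedAddCommGroup E] [NormedSpace ℝ E]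

/-- `h` upward directions illuminate everything except the points near the top -/
def Up (C : Set E) (φ : E →L[ℝ] ℝ) (h : ℕ) : Prop :=
  ∀ δ : ℝ, 0 < δ → ∃ w : Fin h → E, (∀ k, φ (w k) = 1) ∧
    ∀ x ∈ C, ∀ z ∈ C, φ x + δ ≤ φ z → ∃ k, Ill C x (w k)

/-- `2 h` directions illuminate everything -/
def All (C : Set E) (h : ℕ) : Prop :=
  ∃ w : Bool → Fin h → E, ∀ x ∈ C, ∃ b k, Ill C x (w b k)

theorem exists_one {φ : E →L[ℝ] ℝ} (hφ : φ ≠ 0) : ∃ e, φ e = 1 := by
  obtain ⟨v, hv⟩ : ∃ v, φ v ≠ 0 := by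
    by_contra hcon
    push Not at hcon
    exact hφ (by ext v; simpa using hcon v)
  exact ⟨(φ v)⁻¹ • v, by simp [hv]⟩

/-- a functional which vanishes on the kernel of `φ` is a multiple of `φ` -/
theorem eq_smul_of_ker {φ f : E →L[ℝ] ℝ} (hφ : φ ≠ 0) (h : ∀ v, φ v = 0 → f v = 0) :
    ∃ c : ℝ, f = c • φ := by
  obtain ⟨e, he⟩ := exists_one hφ
  refine ⟨f e, ?_⟩
  ext v
  have := h (v - φ v • e) (by simp [he])
  simp only [map_sub, map_smul, smul_eq_mul] at this
  simp only [FunLike.coe_smul, Pi.smul_apply, smul_eq_mul]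
  linarith

/-- `dim E` vectors with sum zero which span the kernel of `φ` -/
theorem exists_horizontal [FiniteDimensional ℝ E] {φ : E →L[ℝ] ℝ} (hφ : φ ≠ 0) {n : ℕ}
    (hn : Module.finrank ℝ E = n) :
    ∃ v : Fin n → E, (∀ k, φ (v k) = 0) ∧ ∑ k, v k = 0 ∧
      ∀ f : E →L[ℝ] ℝ, (∀ k, f (v k) = 0) → ∃ c : ℝ, f = c • φ := by
  have hlin : (φ : E →ₗ[ℝ] ℝ) ≠ 0 := by
    intro h0
    apply hφ
    ext v
    exact LinearMap.congr_fun h0 v
  have hker : Module.finrank ℝ (LinearMap.ker (φ : E →ₗ[ℝ] ℝ)) + 1 = n := by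
    have h1 := LinearMap.finrank_range_add_finrank_ker (φ : E →ₗ[ℝ] ℝ)
    have h2 : LinearMap.range (φ : E →ₗ[ℝ] ℝ) = ⊤ :=
      LinearMap.range_eq_top.2 (LinearMap.surjective hlin)
    rw [h2, finrank_top, Module.finrank_self] at h1
    omega
  obtain ⟨m, rfl⟩ : ∃ m, n = m + 1 := ⟨_, hker.symm⟩
  have hm : Module.finrank ℝ (LinearMap.ker (φ : E →ₗ[ℝ] ℝ)) = m := by omega
  let b := Module.finBasisOfFinrankEq ℝ (LinearMap.ker (φ : E →ₗ[ℝ] ℝ)) hm
  refine ⟨Fin.cons (-∑ j, (b j : E)) fun j => (b j : E), ?_, ?_, ?_⟩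
  · intro k
    have hb : ∀ j, φ (b j : E) = 0 := fun j => (b j).2
    refine Fin.cases ?_ (fun j => ?_) k
    · simp [map_sum, hb]
    · simp [hb j]
  · rw [Fin.sum_univ_succ]
    simp
  · intro f hf
    refine eq_smul_of_ker hφ fun v hv => ?_
    have hv' : v ∈ LinearMap.ker (φ : E →ₗ[ℝ] ℝ) := hv
    have h1 : v = ∑ j, (b.repr ⟨v, hv'⟩ j) • (b j : E) := by
      have h2 := congrArg (Submodule.subtype _) (b.sum_repr ⟨v, hv'⟩)
      rw [map_sum] at h2
      exact h2.symm
    rw [h1, map_sum]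
    refine Finset.sum_eq_zero fun j _ => ?_
    have h3 := hf j.succ
    simp only [Fin.cons_succ] at h3
    rw [map_smul, h3, smul_zero]

theorem exists_nonpos {n : ℕ} (hn : 0 < n) {v : Fin n → E} (hv : ∑ k, v k = 0)
    (f : E →L[ℝ] ℝ) : ∃ k, f (v k) ≤ 0 := by
  by_contra hcon
  push Not at hcon
  have h1 : ∑ k, f (v k) = 0 := by rw [← map_sum, hv, map_zero]
  have h2 : 0 < ∑ k, f (v k) :=
    Finset.sum_pos (fun k _ => hcon k) ⟨⟨0, hn⟩, Finset.mem_univ _⟩
  exact h2.ne' h1

/-- if `x` is a convex combination of points of `C` in which the point `p j` has a positive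
coefficient, then a direction which illuminates `p j` illuminates `x` -/
theorem ill_of_combo {C : Set E} (hC : Convex ℝ C) {ι : Type*} [Fintype ι] {p : ι → E}
    (hp : ∀ i, p i ∈ C) {c : ι → ℝ} (hc : ∀ i, 0 ≤ c i) (hc1 : ∑ i, c i = 1) {j : ι}
    (hj : 0 < c j) {w : E} (hw : Ill C (p j) w) : Ill C (∑ i, c i • p i) w := by
  classical
  obtain ⟨ε, he, hz⟩ := hw
  refine ⟨c j * ε, mul_pos hj he, ?_⟩
  set x : E := ∑ i, c i • p i with hx
  -- the affine map `z ↦ x + c j • (z - p j)` maps `C` into `C`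
  let F : E → E := fun z => x + c j • (z - p j)
  have hF : ∀ z ∈ C, F z ∈ C := by
    intro z hzC
    have h1 : F z = ∑ i, c i • (if i = j then z else p i) := by
      have h2 : ∀ i, c i • (if i = j then z else p i) =
          c i • p i + (if i = j then c j • (z - p j) else 0) := by
        intro i
        by_cases hi : i = j
        · subst hi; simp [smul_sub]
        · simp [hi]
      simp only [F, hx]
      rw [Finset.sum_congr rfl fun i _ => h2 i, Finset.sum_add_distrib]
      simp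
    rw [h1]
    refine hC.sum_mem (fun i _ => hc i) hc1 fun i _ => ?_
    by_cases hi : i = j
    · simp [hi, hzC]
    · simp [hi, hp i]
  have hopen : IsOpenMap F := by
    have h1 : F = (fun y => x + y) ∘ (fun y => c j • y) ∘ fun z => z - p j := rfl
    rw [h1]
    exact (isOpenMap_add_left x).comp ((isOpenMap_smul₀ hj.ne').comp
      (by simpa [sub_eq_add_neg] using isOpenMap_add_right (-p j)))
  have h3 : F '' interior C ⊆ interior C :=
    interior_maximal (by
      rintro _ ⟨z, hz', rfl⟩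
      exact hF z (interior_subset hz')) (hopen _ isOpen_interior)
  have h4 : F (p j + ε • w) ∈ interior C := h3 ⟨_, hz, rfl⟩
  convert h4 using 1
  simp [F, smul_smul]

theorem exists_combo {N : ℕ} {p : Fin N → E} {x : E} (hx : x ∈ convexHull ℝ (range p)) :
    ∃ c : Fin N → ℝ, (∀ i, 0 ≤ c i) ∧ ∑ i, c i = 1 ∧ ∑ i, c i • p i = x := by
  rw [convexHull_range_eq_exists_affineCombination] at hx
  obtain ⟨s, w, hw, hw1, rfl⟩ := hx
  classical
  refine ⟨fun i => if i ∈ s then w i else 0, fun i => ?_, ?_, ?_⟩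
  · by_cases h : i ∈ s <;> simp [h, hw]
  · simpa using hw1
  · rw [Finset.affineCombination_eq_linear_combination _ _ _ hw1]
    simp [ite_smul]

/-- a point of the hull which is not a maximum of `φ` has a vertex which is not a maximum -/
theorem exists_low {N : ℕ} {p : Fin N → E} {C : Set E} (hp : ∀ i, p i ∈ C) {φ : E →L[ℝ] ℝ} {M : ℝ}
    (hM : ∀ c ∈ C, φ c ≤ M) {c : Fin N → ℝ} (hc0 : ∀ i, 0 ≤ c i) (hc1 : ∑ i, c i = 1)
    (hlt : φ (∑ i, c i • p i) < M) : ∃ j, 0 < c j ∧ φ (p j) < M := by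
  by_contra hcon
  push Not at hcon
  have h1 : φ (∑ i, c i • p i) = M := by
    rw [map_sum]
    calc ∑ i, φ (c i • p i) = ∑ i, c i * M := by
          refine Finset.sum_congr rfl fun i _ => ?_
          rw [map_smul, smul_eq_mul]
          rcases (hc0 i).eq_or_lt with h | h
          · rw [← h]; simp
          · rw [le_antisymm (hM _ (hp i)) (hcon i h)]
      _ = M := by rw [← Finset.sum_mul, hc1, one_mul]
  linarith

/-- an upward direction which illuminates a given point, unless `φ` is maximal there -/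
theorem exists_dir {C : Set E} (hC : Convex ℝ C) (hint : (interior C).Nonempty) {φ : E →L[ℝ] ℝ}
    (hφ : φ ≠ 0) {M : ℝ} (hM : ∃ z ∈ C, φ z = M) {q : E} :
    ∃ w : E, φ w = 1 ∧ (φ q < M → Ill C q w) := by
  obtain ⟨e, he⟩ := exists_one hφ
  obtain ⟨z0, hz0, rfl⟩ := hM
  obtain ⟨z1, hz1⟩ := hint
  by_cases hj : φ q < φ z0
  · obtain ⟨z, hz, hzj⟩ : ∃ z ∈ interior C, φ q < φ z := by
      have hcl : z0 ∈ closure (interior C) := by
        rw [hC.closure_interior_eq_closure_of_nonempty_interior ⟨z1, hz1⟩]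
        exact subset_closure hz0
      have hop : IsOpen {z : E | φ q < φ z} := isOpen_lt continuous_const φ.continuous
      obtain ⟨z, h1, h2⟩ := mem_closure_iff.1 hcl _ hop hj
      exact ⟨z, h2, h1⟩
    have hpos : 0 < φ z - φ q := sub_pos.2 hzj
    refine ⟨(φ z - φ q)⁻¹ • (z - q), ?_, fun _ => ⟨φ z - φ q, hpos, ?_⟩⟩
    · simp only [map_smul, map_sub, smul_eq_mul]
      field_simp
    · rw [smul_smul, mul_inv_cancel₀ hpos.ne', one_smul]
      simpa using hz
  · exact ⟨e, he, fun h1 => absurd h1 hj⟩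

/-- bodies of dimension `n` which are smooth outside of the hull of `b` of their points have
`n + b` upward directions -/
theorem SmoothOutside.up [FiniteDimensional ℝ E] {C : Set E} {b : ℕ} {q : Fin b → E}
    (hs : SmoothOutside C (range q)) (hq : ∀ j, q j ∈ C) (hC : Convex ℝ C)
    (hc : IsCompact C) (hint : (interior C).Nonempty) {φ : E →L[ℝ] ℝ} (hφ : φ ≠ 0) {n : ℕ}
    (hn : Module.finrank ℝ E = n) : Up C φ (n + b) := by
  intro δ hδ
  obtain ⟨v, hv0, hvs, hvf⟩ := exists_horizontal hφ hn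
  obtain ⟨e, he⟩ := exists_one hφ
  have hnpos : 0 < n := by
    rw [← hn]
    have : Nontrivial E := ⟨⟨e, 0, by rintro rfl; simp at he⟩⟩
    exact Module.finrank_pos
  obtain ⟨zM, hzM, hzM2⟩ := hc.exists_isMaxOn (hint.mono interior_subset) φ.continuous.continuousOn
  have hmaxM : ∀ c ∈ C, φ c ≤ φ zM := fun c hc' => hzM2 hc'
  have hdir : ∀ j, ∃ w : E, φ w = 1 ∧ (φ (q j) < φ zM → Ill C (q j) w) := fun j =>
    exists_dir hC hint hφ ⟨zM, hzM, rfl⟩
  choose w hw1 hw2 using hdir
  -- points of the hull of the exceptional points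
  have hexc : ∀ x ∈ convexHull ℝ (range q), φ x < φ zM → ∃ j, Ill C x (w j) := by
    intro x hx hlt
    obtain ⟨c, hc0, hc1, rfl⟩ := exists_combo hx
    obtain ⟨j, hj, hjlt⟩ := exists_low hq hmaxM hc0 hc1 hlt
    exact ⟨j, ill_of_combo hC hq hc0 hc1 hj (hw2 j hjlt)⟩
  have key : ∀ᶠ η : ℝ in 𝓝 0, ∀ x ∈ C, 0 < η → x ∈ C → φ x + δ ≤ φ zM →
      (∃ k, Ill C x (v k + η • e)) ∨ ∃ j, Ill C x (w j) := by
    refine hc.eventually_forall_of_forall_eventually
      (P := fun η x => 0 < η → x ∈ C → φ x + δ ≤ φ zM →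
        (∃ k, Ill C x (v k + η • e)) ∨ ∃ j, Ill C x (w j))
      fun x hx => ?_
    by_cases hmax : φ x = φ zM
    · have hcont : Continuous fun z : ℝ × E => φ z.2 := by fun_prop
      have h1 : ∀ᶠ z : ℝ × E in 𝓝 ((0 : ℝ), x), φ x - δ < φ z.2 :=
        hcont.continuousAt.eventually (Ioi_mem_nhds (by simpa using hδ))
      filter_upwards [h1] with z h2 _ _ h3
      linarith
    have hlt : φ x < φ zM := lt_of_le_of_ne (hmaxM x hx) hmax
    by_cases hxi : x ∈ interior C
    · have hcont : Continuous fun z : ℝ × E => z.2 := by fun_prop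
      have h1 : ∀ᶠ z : ℝ × E in 𝓝 ((0 : ℝ), x), z.2 ∈ interior C :=
        hcont.continuousAt.eventually (isOpen_interior.mem_nhds hxi)
      filter_upwards [h1] with z h2 _ _ _
      exact Or.inl ⟨⟨0, hnpos⟩, ill_of_interior h2 _⟩
    have hopen : ∀ u : E, Ill C x u → ∀ᶠ z : ℝ × E in 𝓝 ((0 : ℝ), x), Ill C z.2 u := by
      intro u hu
      have hcont : Continuous fun z : ℝ × E => (z.2, u) := by fun_prop
      have h3 := hcont.continuousAt (x := ((0 : ℝ), x))
      exact h3.eventually hu.eventually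
    by_cases hxF : x ∈ convexHull ℝ (range q)
    · obtain ⟨j, hj⟩ := hexc x hxF hlt
      filter_upwards [hopen _ hj] with z h2 _ _ _
      exact Or.inr ⟨j, h2⟩
    obtain ⟨f, hf0, hfs, hfi⟩ := hs.exists_functional hC hint hx hxF hxi
    by_cases hk : ∃ k, f (v k) < 0
    · obtain ⟨k, hk⟩ := hk
      have hcont : Continuous fun z : ℝ × E => (z.2, v k + z.1 • e) := by fun_prop
      have h1 : ∀ᶠ z : ℝ × E in 𝓝 ((0 : ℝ), x), Ill C z.2 (v k + z.1 • e) := by
        have h2 := (hfi _ hk).eventually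
        have h3 := hcont.continuousAt (x := ((0 : ℝ), x))
        have h4 : ((((0 : ℝ), x) : ℝ × E).2, v k + (((0 : ℝ), x) : ℝ × E).1 • e) = (x, v k) := by
          simp
        rw [ContinuousAt, h4] at h3
        exact h3.eventually h2
      filter_upwards [h1] with z h2 _ _ _
      exact Or.inl ⟨k, h2⟩
    · push Not at hk
      have hz : ∀ k, f (v k) = 0 := by
        have h1 : ∑ k, f (v k) = 0 := by rw [← map_sum, hvs, map_zero]
        intro k
        exact (Finset.sum_eq_zero_iff_of_nonneg fun k _ => hk k).1 h1 k (Finset.mem_univ _)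
      obtain ⟨c, hfc⟩ := hvf f hz
      have hc0 : c ≠ 0 := by
        rintro rfl
        exact hf0 (by rw [hfc]; simp)
      have hcneg : c < 0 := by
        rcases lt_or_gt_of_ne hc0 with h | h
        · exact h
        · exfalso
          have := hfs zM hzM
          rw [hfc] at this
          simp only [FunLike.coe_smul, Pi.smul_apply, smul_eq_mul] at this
          exact absurd (le_of_mul_le_mul_left this h) (not_le.2 hlt)
      have hie : Ill C x e := hfi e (by
        rw [hfc]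
        simp only [FunLike.coe_smul, Pi.smul_apply, smul_eq_mul, he]
        linarith)
      filter_upwards [hopen _ hie] with z h2 h3 h4 h5
      by_cases hzi : z.2 ∈ interior C
      · exact Or.inl ⟨⟨0, hnpos⟩, ill_of_interior hzi _⟩
      by_cases hzF : z.2 ∈ convexHull ℝ (range q)
      · exact Or.inr (hexc _ hzF (by linarith))
      obtain ⟨g, hg0, hgs, hgi⟩ := hs.exists_functional hC hint h4 hzF hzi
      obtain ⟨k, hk'⟩ := exists_nonpos hnpos hvs g
      refine Or.inl ⟨k, hgi _ ?_⟩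
      have h6 := h2.neg hg0 hgs
      simp only [map_add, map_smul, smul_eq_mul]
      nlinarith [mul_neg_of_pos_of_neg h3 h6]
  obtain ⟨η, h1, h2⟩ := ((key.filter_mono nhdsWithin_le_nhds).and
    (self_mem_nhdsWithin : Ioi (0 : ℝ) ∈ 𝓝[>] 0)).exists
  have h2' : (0 : ℝ) < η := h2
  refine ⟨Fin.append (fun k => η⁻¹ • (v k + η • e)) w, fun k => ?_, fun x hx z hz hxz => ?_⟩
  · refine Fin.addCases (fun k => ?_) (fun j => ?_) k
    · rw [Fin.append_left]
      simp only [map_smul, map_add, hv0 k, he, smul_eq_mul]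
      field_simp
      simp
    · rw [Fin.append_right]
      exact hw1 j
  · have := hmaxM z hz
    rcases h1 x hx h2 hx (by linarith) with ⟨k, hk⟩ | ⟨j, hj⟩
    · exact ⟨Fin.castAdd b k, by rw [Fin.append_left]; exact hk.smul (inv_pos.2 h2')⟩
    · exact ⟨Fin.natAdd n j, by rw [Fin.append_right]; exact hj⟩

theorem SmoothOutside.all [FiniteDimensional ℝ E] {C : Set E} {b : ℕ} {q : Fin b → E}
    (hs : SmoothOutside C (range q)) (hq : ∀ j, q j ∈ C) (hC : Convex ℝ C)
    (hint : (interior C).Nonempty) {n : ℕ} (hn : Module.finrank ℝ E = n) (hnpos : 0 < n) :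
    All C (n + b) := by
  let v := Module.finBasisOfFinrankEq ℝ E hn
  obtain ⟨z, hz⟩ := hint
  refine ⟨fun s => Fin.append (fun k => if s then v k else -v k) fun j => z - q j,
    fun x hx => ?_⟩
  by_cases hxi : x ∈ interior C
  · exact ⟨true, Fin.castAdd b ⟨0, hnpos⟩, ill_of_interior hxi _⟩
  by_cases hxF : x ∈ convexHull ℝ (range q)
  · obtain ⟨c, hc0, hc1, rfl⟩ := exists_combo hxF
    obtain ⟨j, hj⟩ : ∃ j, 0 < c j := by
      by_contra hcon
      push Not at hcon
      have : ∑ i, c i ≤ 0 := Finset.sum_nonpos fun i _ => hcon i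
      linarith
    have hill : Ill C (q j) (z - q j) := ⟨1, one_pos, by simpa using hz⟩
    refine ⟨true, Fin.natAdd n j, ?_⟩
    beta_reduce
    rw [Fin.append_right]
    exact ill_of_combo hC hq hc0 hc1 hj hill
  obtain ⟨f, hf0, hfs, hfi⟩ := hs.exists_functional hC ⟨z, hz⟩ hx hxF hxi
  obtain ⟨k, hk⟩ : ∃ k, f (v k) ≠ 0 := by
    by_contra hcon
    push Not at hcon
    apply hf0
    ext u
    conv_lhs => rw [← v.sum_repr u]
    rw [map_sum]
    exact Finset.sum_eq_zero fun k _ => by rw [map_smul, hcon k, smul_zero]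
  rcases lt_or_gt_of_ne hk with h | h
  · refine ⟨true, Fin.castAdd b k, ?_⟩
    beta_reduce
    rw [Fin.append_left]
    exact hfi _ (by simpa using h)
  · refine ⟨false, Fin.castAdd b k, ?_⟩
    beta_reduce
    rw [Fin.append_left]
    exact hfi _ (by simpa using h)

/-- convex hulls of `h + 1` points have `h` upward directions -/
theorem up_of_hull {h : ℕ} (p : Fin (h + 1) → E)
    (hint : (interior (convexHull ℝ (range p))).Nonempty) {φ : E →L[ℝ] ℝ} (hφ : φ ≠ 0) :
    Up (convexHull ℝ (range p)) φ h := by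
  intro δ hδ
  set C := convexHull ℝ (range p) with hCdef
  have hC : Convex ℝ C := convex_convexHull ℝ _
  have hpC : ∀ i, p i ∈ C := fun i => subset_convexHull ℝ _ ⟨i, rfl⟩
  obtain ⟨j0, hj0⟩ : ∃ j0, ∀ j, φ (p j) ≤ φ (p j0) := Finite.exists_max fun j => φ (p j)
  have hzmax : ∀ z ∈ C, φ z ≤ φ (p j0) := by
    intro z hz
    obtain ⟨c', hc0', hc1', rfl⟩ := exists_combo hz
    rw [map_sum]
    calc ∑ i, φ (c' i • p i) ≤ ∑ i, c' i * φ (p j0) := by
          refine Finset.sum_le_sum fun i _ => ?_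
          rw [map_smul, smul_eq_mul]
          exact mul_le_mul_of_nonneg_left (hj0 i) (hc0' i)
      _ = φ (p j0) := by rw [← Finset.sum_mul, hc1', one_mul]
  have hdir : ∀ j, ∃ w : E, φ w = 1 ∧ (φ (p j) < φ (p j0) → Ill C (p j) w) := fun j =>
    exists_dir hC hint hφ ⟨p j0, hpC j0, rfl⟩
  choose w hw1 hw2 using hdir
  refine ⟨fun k => w (j0.succAbove k), fun k => hw1 _, fun x hx z hz hxz => ?_⟩
  obtain ⟨c, hc0, hc1, rfl⟩ := exists_combo hx
  have hlt : φ (∑ i, c i • p i) < φ (p j0) := by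
    have := hzmax z hz
    linarith
  obtain ⟨j, hj, hjlt⟩ := exists_low hpC hzmax hc0 hc1 hlt
  have hne : j ≠ j0 := by rintro rfl; exact lt_irrefl _ hjlt
  obtain ⟨k, rfl⟩ := Fin.exists_succAbove_eq hne
  exact ⟨k, ill_of_combo hC hpC hc0 hc1 hj (hw2 _ hjlt)⟩

theorem all_of_hull {h : ℕ} (hh : 0 < h) (p : Fin (h + 1) → E)
    (hint : (interior (convexHull ℝ (range p))).Nonempty) :
    All (convexHull ℝ (range p)) h := by
  set C := convexHull ℝ (range p) with hCdef
  have hC : Convex ℝ C := convex_convexHull ℝ _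
  have hpC : ∀ i, p i ∈ C := fun i => subset_convexHull ℝ _ ⟨i, rfl⟩
  obtain ⟨z, hz⟩ := hint
  refine ⟨fun s k => if s then z - p (Fin.last h) else z - p k.castSucc, fun x hx => ?_⟩
  obtain ⟨c, hc0, hc1, rfl⟩ := exists_combo hx
  obtain ⟨j, hj⟩ : ∃ j, 0 < c j := by
    by_contra hcon
    push Not at hcon
    have : ∑ i, c i ≤ 0 := Finset.sum_nonpos fun i _ => hcon i
    linarith
  have hill : Ill C (p j) (z - p j) := ⟨1, one_pos, by simpa using hz⟩
  have hres := ill_of_combo hC hpC hc0 hc1 hj hill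
  induction j using Fin.lastCases with
  | last => exact ⟨true, ⟨0, hh⟩, by simpa using hres⟩
  | cast k => exact ⟨false, k, by simpa using hres⟩

end Pool.Agent.J4H45.HC
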