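import Mathlib

/-!
# Patterns

The combinatorial part. Let `b i ≥ 0`, `b p > 0` and `0 < t < ∑ b i`. The `2 ^ (r - 1)` patterns
`pat b t p σ`, one for each choice `σ` of bits outside of `p`, have the following property: whenever
the sets `U` and `L` are disjoint and the sum of `b` over `U` is at most `t`, and the sum over the
complement of `L` is at least `t`, then one of the patterns is `true` on `U` and `false` on `L`.
-/

set_option autoImplicit false

open Finset

namespace Pool.Agent.J4H45.HC

variable {ι : Type*} [Fintype ι] [DecidableEq ι]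

open Classical in
/-- the weight of the `true` bits outside of `p` -/
noncomputable def wt (b : ι → ℝ) (p : ι) (σ : {i : ι // i ≠ p} → Bool) : ℝ :=
  ∑ i, if h : i ≠ p then (if σ ⟨i, h⟩ then b i else 0) else 0

open Classical in
/-- the pattern of `σ`: the bit at `p` is determined by the others -/
noncomputable def pat (b : ι → ℝ) (t : ℝ) (p : ι) (σ : {i : ι // i ≠ p} → Bool) : ι → Bool :=
  fun i => if h : i ≠ p then σ ⟨i, h⟩ else decide (wt b p σ + b p ≤ t ∨ wt b p σ ≤ 0)

theorem pat_ne {b : ι → ℝ} {t : ℝ} {p : ι} {σ : {i : ι // i ≠ p} → Bool} {i : ι} (h : i ≠ p) :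
    pat b t p σ i = σ ⟨i, h⟩ := by
  simp [pat, h]

theorem pat_self {b : ι → ℝ} {t : ℝ} {p : ι} {σ : {i : ι // i ≠ p} → Bool} :
    pat b t p σ p = true ↔ wt b p σ + b p ≤ t ∨ wt b p σ ≤ 0 := by
  simp [pat]

/-- the weight of the bits outside of `p` of a set -/
theorem wt_set (b : ι → ℝ) (p : ι) (S : ι → Prop) [DecidablePred S] :
    wt b p (fun i => decide (S i.1)) = ∑ i ∈ univ.filter (fun i => S i ∧ i ≠ p), b i := by
  rw [wt, sum_filter]
  refine sum_congr rfl fun i _ => ?_
  by_cases h : i = p
  · simp [h]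
  · by_cases h2 : S i <;> simp [h, h2]

theorem sum_split (b : ι → ℝ) (p : ι) (S : ι → Prop) [DecidablePred S] (hp : S p) :
    ∑ i ∈ univ.filter S, b i = ∑ i ∈ univ.filter (fun i => S i ∧ i ≠ p), b i + b p := by
  have h1 : univ.filter S = insert p (univ.filter fun i => S i ∧ i ≠ p) := by
    ext i
    simp only [mem_filter, mem_univ, true_and, mem_insert]
    constructor
    · intro h
      by_cases hi : i = p
      · exact Or.inl hi
      · exact Or.inr ⟨h, hi⟩
    · rintro (rfl | h)
      · exact hp
      · exact h.1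
  rw [h1, sum_insert (by simp)]
  ring

theorem hit {b : ι → ℝ} {t : ℝ} {p : ι} (hp : 0 < b p) (ht : 0 < t)
    (U L : ι → Prop) (hUL : ∀ i, U i → ¬ L i)
    (hU : ∀ S : Finset ι, (∀ i, i ∈ S ↔ U i) → ∑ i ∈ S, b i ≤ t)
    (hL : ∀ S : Finset ι, (∀ i, i ∈ S ↔ ¬ L i) → t ≤ ∑ i ∈ S, b i) :
    ∃ σ : {i : ι // i ≠ p} → Bool, (∀ i, U i → pat b t p σ i = true) ∧
      ∀ i, L i → pat b t p σ i = false := by
  classical
  by_cases hpL : L p
  · refine ⟨fun i => decide (¬ L i.1), fun i hi => ?_, fun i hi => ?_⟩
    · have hne : i ≠ p := by rintro rfl; exact hUL _ hi hpL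
      rw [pat_ne hne]
      simpa using hUL i hi
    · by_cases hip : i = p
      · subst hip
        rw [← Bool.not_eq_true, pat_self, wt_set b i fun j => ¬ L j]
        have h1 : t ≤ ∑ j ∈ univ.filter (fun j => ¬ L j ∧ j ≠ i), b j := by
          refine hL _ fun j => ?_
          simp only [mem_filter, mem_univ, true_and]
          constructor
          · exact fun h => h.1
          · exact fun h => ⟨h, by rintro rfl; exact h hpL⟩
        rintro (h | h) <;> linarith
      · rw [pat_ne hip]
        simpa using hi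
  · refine ⟨fun i => decide (U i.1), fun i hi => ?_, fun i hi => ?_⟩
    · by_cases hip : i = p
      · subst hip
        rw [pat_self, wt_set b i U]
        left
        rw [← sum_split b i U hi]
        exact hU _ fun j => by simp
      · rw [pat_ne hip]
        simpa using hi
    · have hip : i ≠ p := by rintro rfl; exact hpL hi
      rw [pat_ne hip]
      simpa using fun h => hUL i h hi

/-- no pattern is constant on the coordinates with positive `b` -/
theorem pat_nonconst {b : ι → ℝ} {t : ℝ} {p : ι} (hb : ∀ i, 0 ≤ b i) (hp : 0 < b p)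
    (ht : t < ∑ i, b i) (h2 : ∃ q, q ≠ p ∧ 0 < b q) (σ : {i : ι // i ≠ p} → Bool) :
    (∃ i, 0 < b i ∧ pat b t p σ i = true) ∧ ∃ i, 0 < b i ∧ pat b t p σ i = false := by
  classical
  have hwt : wt b p σ = ∑ i ∈ univ.filter (fun i => pat b t p σ i = true ∧ i ≠ p), b i := by
    rw [wt, sum_filter]
    refine sum_congr rfl fun i _ => ?_
    by_cases h : i = p
    · simp [h]
    · rw [dif_pos h]
      by_cases h3 : σ ⟨i, h⟩ <;> simp [pat_ne h, h, h3]
  by_cases hpt : pat b t p σ p = true
  · refine ⟨⟨p, hp, hpt⟩, ?_⟩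
    by_contra hcon
    push Not at hcon
    have hall : ∀ i, 0 < b i → pat b t p σ i = true := fun i hi => by
      simpa using hcon i hi
    rcases pat_self.1 hpt with h | h
    · rw [hwt] at h
      have h3 := sum_split b p (fun i => pat b t p σ i = true) hpt
      rw [← h3] at h
      have h4 : ∑ i ∈ univ.filter (fun i => pat b t p σ i = true), b i = ∑ i, b i := by
        rw [sum_filter]
        refine sum_congr rfl fun i _ => ?_
        by_cases hi : pat b t p σ i = true
        · simp [hi]
        · have : b i = 0 := by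
            rcases (hb i).eq_or_lt with h5 | h5
            · exact h5.symm
            · exact absurd (hall i h5) hi
          simp [this]
      linarith
    · obtain ⟨q, hqp, hq⟩ := h2
      rw [hwt] at h
      have h3 : b q ≤ ∑ i ∈ univ.filter (fun i => pat b t p σ i = true ∧ i ≠ p), b i :=
        single_le_sum (f := b) (fun i _ => hb i) (by simp [hall q hq, hqp])
      linarith
  · refine ⟨?_, ⟨p, hp, by simpa using hpt⟩⟩
    have h3 : ¬ (wt b p σ + b p ≤ t ∨ wt b p σ ≤ 0) := fun h => hpt (pat_self.2 h)
    push Not at h3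
    rw [hwt] at h3
    by_contra hcon
    push Not at hcon
    have h4 : ∑ i ∈ univ.filter (fun i => pat b t p σ i = true ∧ i ≠ p), b i ≤ 0 := by
      refine sum_nonpos fun i hi => ?_
      simp only [mem_filter, mem_univ, true_and] at hi
      by_contra h5
      push Not at h5
      exact hcon i h5 hi.1
    linarith [h3.2]

/-- There are `N` patterns, none of them constant on the coordinates with `b i > 0`, such that
whenever `U` and `L` are disjoint and the sum of `b` over `U` is at most `t` and the sum over the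
complement of `L` is at least `t`, then one of the patterns is `true` on `U` and `false` on `L`. -/
def HasPats (b : ι → ℝ) (t : ℝ) (N : ℕ) : Prop :=
  ∃ D : Finset (ι → Bool), D.card ≤ N ∧
    (∀ θ ∈ D, (∃ i, 0 < b i ∧ θ i = true) ∧ ∃ i, 0 < b i ∧ θ i = false) ∧
    ∀ U L : ι → Prop, (∀ i, U i → ¬ L i) →
      (∀ S : Finset ι, (∀ i, i ∈ S ↔ U i) → ∑ i ∈ S, b i ≤ t) →
      (∀ S : Finset ι, (∀ i, i ∈ S ↔ ¬ L i) → t ≤ ∑ i ∈ S, b i) →
      ∃ θ ∈ D, (∀ i, U i → θ i = true) ∧ ∀ i, L i → θ i = false

theorem card_bits (p : ι) : Fintype.card ({i : ι // i ≠ p} → Bool) = 2 ^ (Fintype.card ι - 1) := by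
  have hcard : Fintype.card {i : ι // i ≠ p} = Fintype.card ι - 1 := by
    have := Fintype.card_subtype_compl (fun i : ι => i = p)
    simpa using this
  rw [Fintype.card_fun, Fintype.card_bool, hcard]

theorem hasPats {b : ι → ℝ} {t : ℝ} {p : ι} (hb : ∀ i, 0 ≤ b i) (hp : 0 < b p) (ht : 0 < t)
    (ht' : t < ∑ i, b i) (h2 : ∃ q, q ≠ p ∧ 0 < b q) : HasPats b t (2 ^ (Fintype.card ι - 1)) := by
  classical
  refine ⟨Finset.univ.image (pat b t p), ?_, ?_, ?_⟩
  · exact Finset.card_image_le.trans (by rw [Finset.card_univ, card_bits p])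
  · intro θ hθ
    obtain ⟨σ, -, rfl⟩ := Finset.mem_image.1 hθ
    exact pat_nonconst hb hp ht' h2 σ
  · intro U L hUL hU hL
    obtain ⟨σ, h3, h4⟩ := hit hp ht U L hUL hU hL
    exact ⟨_, Finset.mem_image.2 ⟨σ, Finset.mem_univ _, rfl⟩, h3, h4⟩

/-- one pattern less, if the coordinate `p` is the largest and the others have a sum larger
than `t` -/
theorem hasPats_lt {b : ι → ℝ} {t : ℝ} {p : ι} (hb : ∀ i, 0 ≤ b i) (hmax : ∀ i, b i ≤ b p)
    (ht : 0 < t) (hB : t < ∑ i ∈ univ.filter (fun i => i ≠ p), b i)
    (h2 : ∃ q q', q ≠ p ∧ q' ≠ p ∧ q ≠ q' ∧ 0 < b q ∧ 0 < b q') :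
    HasPats b t (2 ^ (Fintype.card ι - 1) - 1) := by
  classical
  obtain ⟨q, q', hqp, hqp', hqq, hq, hq'⟩ := h2
  have hp : 0 < b p := hq.trans_le (hmax q)
  have ht' : t < ∑ i, b i :=
    hB.trans_le (sum_le_sum_of_subset_of_nonneg (subset_univ _) fun i _ _ => hb i)
  let top : {i : ι // i ≠ p} → Bool := fun _ => true
  refine ⟨(Finset.univ.erase top).image (pat b t p), ?_, ?_, ?_⟩
  · refine Finset.card_image_le.trans ?_
    rw [Finset.card_erase_of_mem (Finset.mem_univ _), Finset.card_univ, card_bits p]
  · intro θ hθ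
    obtain ⟨σ, -, rfl⟩ := Finset.mem_image.1 hθ
    exact pat_nonconst hb hp ht' ⟨q, hqp, hq⟩ σ
  · intro U L hUL hU hL
    obtain ⟨σ, h3, h4⟩ := hit hp ht U L hUL hU hL
    by_cases hσ : σ ≠ top
    · exact ⟨_, Finset.mem_image.2 ⟨σ, Finset.mem_erase.2 ⟨hσ, Finset.mem_univ _⟩, rfl⟩, h3, h4⟩
    · push Not at hσ
      subst hσ
      -- only `p` may be low
      have hL' : ∀ i, L i → i = p := by
        intro i hi
        by_contra hne
        have := h4 i hi
        rw [pat_ne hne] at this
        simp [top] at this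
      -- there is a coordinate which is not in `U`
      obtain ⟨j, hjp, hjU, hj⟩ : ∃ j, j ≠ p ∧ ¬ U j ∧ 0 < b j := by
        by_contra hcon
        push Not at hcon
        have h5 : ∑ i ∈ univ.filter (fun i => i ≠ p), b i ≤ ∑ i ∈ univ.filter U, b i := by
          rw [sum_filter, sum_filter]
          refine sum_le_sum fun i _ => ?_
          by_cases hi : i = p
          · simp only [hi, ne_eq, not_true_eq_false, if_false]
            split_ifs
            · exact hb p
            · exact le_rfl
          · by_cases hUi : U i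
            · simp [hi, hUi]
            · have := le_antisymm (hcon i hi hUi) (hb i)
              simp [this]
        have h6 := hU (univ.filter U) (by simp)
        linarith
      let σ' : {i : ι // i ≠ p} → Bool := fun i => decide (i.1 ≠ j)
      have hne : σ' ≠ top := by
        intro h5
        have := congrFun h5 ⟨j, hjp⟩
        simp [σ', top] at this
      have hw : wt b p σ' = ∑ i ∈ univ.filter (fun i => i ≠ j ∧ i ≠ p), b i :=
        wt_set b p fun i => i ≠ j
      have hw2 : ∑ i ∈ univ.filter (fun i => i ≠ p), b i = wt b p σ' + b j := by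
        rw [hw, sum_split b j (fun i => i ≠ p) hjp]
        congr 1
        exact sum_congr (by ext i; simp [and_comm]) fun _ _ => rfl
      have hwpos : 0 < wt b p σ' := by
        rw [hw]
        obtain ⟨k, hkj, hkp, hk⟩ : ∃ k, k ≠ j ∧ k ≠ p ∧ 0 < b k := by
          by_cases hqj : q = j
          · exact ⟨q', fun h => hqq (hqj.trans h.symm), hqp', hq'⟩
          · exact ⟨q, hqj, hqp, hq⟩
        exact hk.trans_le (single_le_sum (f := b) (fun i _ => hb i) (by simp [hkj, hkp]))
      have hbit : pat b t p σ' p = false := by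
        rw [← Bool.not_eq_true, pat_self]
        rintro (h5 | h5)
        · have := hmax j
          linarith
        · linarith
      refine ⟨_, Finset.mem_image.2 ⟨σ', Finset.mem_erase.2 ⟨hne, Finset.mem_univ _⟩, rfl⟩,
        fun i hi => ?_, fun i hi => ?_⟩
      · have hip : i ≠ p := by
          rintro rfl
          -- the pattern of `top` is `false` at `p`
          have h5 := h3 i hi
          rw [pat_self] at h5
          have h6 : wt b i top = ∑ k ∈ univ.filter (fun k => k ≠ i), b k := by
            have := wt_set b i fun _ => True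
            simp only [decide_true, true_and] at this
            exact this
          rcases h5 with h5 | h5 <;> linarith
        rw [pat_ne hip]
        have : i ≠ j := by rintro rfl; exact hjU hi
        simp [σ', this]
      · rw [hL' i hi]
        exact hbit

/-- the mirror image -/
theorem HasPats.mirror {b : ι → ℝ} {t : ℝ} {N : ℕ} (h : HasPats b (∑ i, b i - t) N) :
    HasPats b t N := by
  classical
  obtain ⟨D, hD, hn, hh⟩ := h
  refine ⟨D.image fun θ i => !θ i, Finset.card_image_le.trans hD, ?_, ?_⟩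
  · intro θ' hθ'
    obtain ⟨θ, hθ, rfl⟩ := Finset.mem_image.1 hθ'
    obtain ⟨⟨i, hi, hi2⟩, ⟨j, hj, hj2⟩⟩ := hn θ hθ
    exact ⟨⟨j, hj, by simp [hj2]⟩, ⟨i, hi, by simp [hi2]⟩⟩
  · intro U L hUL hU hL
    have hcompl : ∀ S : Finset ι, ∑ i ∈ S, b i = ∑ i, b i - ∑ i ∈ Sᶜ, b i := fun S => by
      rw [← sum_add_sum_compl S]; ring
    obtain ⟨θ, hθ, h1, h2⟩ := hh L U (fun i hi hi' => hUL i hi' hi)
      (fun S hS => by
        have := hL Sᶜ (fun i => by rw [mem_compl, hS])
        rw [hcompl S]
        linarith)
      (fun S hS => by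
        have := hU Sᶜ (fun i => by rw [mem_compl, hS, not_not])
        rw [hcompl S]
        linarith)
    refine ⟨_, Finset.mem_image.2 ⟨θ, hθ, rfl⟩, fun i hi => ?_, fun i hi => ?_⟩
    · simp [h2 i hi]
    · simp [h1 i hi]

end Pool.Agent.J4H45.HC
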