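import Pool.Agent.J4H45.HC.Lift
import Pool.Agent.J4H45.HC.Pat

/-!
# Intersections of cylinders of total dimension `d + 1`
-/

set_option autoImplicit false

open Set Filter Topology

namespace Pool.Agent.J4H45.HC

section
variable {ι : Type*} [Fintype ι] [DecidableEq ι]
variable {X : Type*} [NormedAddCommGroup X] [NormedSpace ℝ X] [FiniteDimensional ℝ X]
variable {Y : ι → Type*} [∀ i, NormedAddCommGroup (Y i)] [∀ i, NormedSpace ℝ (Y i)]
  [∀ i, FiniteDimensional ℝ (Y i)]

/-- the relation between the components: functionals `φ i`, not all zero, such that `y` consists of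
the components of a vector of `X` iff `∑ φ i (y i) = 0` -/
theorem exists_relation (l : ∀ i, X →L[ℝ] Y i) (hinj : ∀ v, (∀ i, l i v = 0) → v = 0)
    (hdim : ∑ i, Module.finrank ℝ (Y i) = Module.finrank ℝ X + 1) :
    ∃ φ : ∀ i, Y i →L[ℝ] ℝ, (∃ i, φ i ≠ 0) ∧ (∀ v, ∑ i, φ i (l i v) = 0) ∧
      ∀ y : ∀ i, Y i, ∑ i, φ i (y i) = 0 → ∃ v, ∀ i, l i v = y i := by
  let L : X →ₗ[ℝ] (∀ i, Y i) := LinearMap.pi fun i => (l i : X →ₗ[ℝ] Y i)
  have hLi : Function.Injective L := by
    rw [← LinearMap.ker_eq_bot, LinearMap.ker_eq_bot']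
    intro v hv
    exact hinj v fun i => congrFun hv i
  have hfr : Module.finrank ℝ (LinearMap.range L) = Module.finrank ℝ X :=
    LinearMap.finrank_range_of_inj hLi
  have hpi : Module.finrank ℝ (∀ i, Y i) = Module.finrank ℝ X + 1 := by
    rw [Module.finrank_pi_fintype, hdim]
  have hlt : LinearMap.range L < ⊤ := by
    rw [lt_top_iff_ne_top]
    intro h
    rw [h, finrank_top, hpi] at hfr
    omega
  obtain ⟨f, hf0, hf⟩ := Submodule.exists_le_ker_of_lt_top _ hlt
  have hker : Module.finrank ℝ (LinearMap.ker f) = Module.finrank ℝ X := by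
    have h1 := LinearMap.finrank_range_add_finrank_ker f
    have h2 : LinearMap.range f = ⊤ := LinearMap.range_eq_top.2 (LinearMap.surjective hf0)
    rw [h2, finrank_top, Module.finrank_self, hpi] at h1
    omega
  have heq : LinearMap.range L = LinearMap.ker f :=
    Submodule.eq_of_le_of_finrank_eq hf (hfr.trans hker.symm)
  let φ : ∀ i, Y i →L[ℝ] ℝ := fun i =>
    LinearMap.toContinuousLinearMap (f ∘ₗ LinearMap.single ℝ Y i)
  have hφ : ∀ y : ∀ i, Y i, ∑ i, φ i (y i) = f y := by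
    intro y
    have h1 : y = ∑ i, Pi.single i (y i) := (Finset.univ_sum_single y).symm
    conv_rhs => rw [h1, map_sum]
    rfl
  refine ⟨φ, ?_, fun v => ?_, fun y hy => ?_⟩
  · by_contra hcon
    push Not at hcon
    apply hf0
    ext1 i
    ext y
    have h1 : φ i y = 0 := by rw [hcon i]; rfl
    exact h1
  · have h1 : L v ∈ LinearMap.ker f := heq ▸ LinearMap.mem_range_self L v
    have h2 := hφ (L v)
    rw [LinearMap.mem_ker.1 h1] at h2
    exact h2
  · have h1 : y ∈ LinearMap.range L := by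
      rw [heq, LinearMap.mem_ker, ← hφ y, hy]
    obtain ⟨v, hv⟩ := h1
    exact ⟨v, fun i => congrFun hv i⟩

theorem eq_zero_of_bounded {K : Set X} (hK : IsCompact K) {x0 v : X}
    (h : ∀ s : ℝ, x0 + s • v ∈ K) : v = 0 := by
  by_contra hv
  obtain ⟨R, hR⟩ := hK.isBounded.exists_norm_le
  have hvp : 0 < ‖v‖ := norm_pos_iff.2 hv
  have h1 := hR _ (h ((R + ‖x0‖ + 1) / ‖v‖))
  have h2 : ‖((R + ‖x0‖ + 1) / ‖v‖) • v‖ = |R + ‖x0‖ + 1| := by
    rw [norm_smul, norm_div, norm_norm, div_mul_cancel₀ _ hvp.ne', Real.norm_eq_abs]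
  have h3 : ‖((R + ‖x0‖ + 1) / ‖v‖) • v‖ ≤ ‖x0 + ((R + ‖x0‖ + 1) / ‖v‖) • v‖ + ‖x0‖ := by
    have := norm_sub_le (x0 + ((R + ‖x0‖ + 1) / ‖v‖) • v) x0
    simpa using this
  rw [h2] at h3
  have := le_abs_self (R + ‖x0‖ + 1)
  linarith

open Classical in
/-- the core: given the relation between the components and the patterns -/
theorem core (l : ∀ i, X →L[ℝ] Y i) (C : ∀ i, Set (Y i)) (hC : ∀ i, Convex ℝ (C i)) (h : ι → ℕ)
    (hup : ∀ i (φ : Y i →L[ℝ] ℝ), φ ≠ 0 → Up (C i) φ (h i)) (hall : ∀ i, All (C i) (h i))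
    {K : Set X} (hK : K = ⋂ i, l i ⁻¹' C i) (hKc : IsCompact K)
    {φ : ∀ i, Y i →L[ℝ] ℝ} (hrel : ∀ v, ∑ i, φ i (l i v) = 0)
    (hex : ∀ y : ∀ i, Y i, ∑ i, φ i (y i) = 0 → ∃ v, ∀ i, l i v = y i)
    {zM zm : ∀ i, Y i} (hzM : ∀ i, zM i ∈ C i) (hMax : ∀ i, ∀ x ∈ C i, φ i x ≤ φ i (zM i))
    (hzm : ∀ i, zm i ∈ C i) (hMin : ∀ i, ∀ x ∈ C i, φ i (zm i) ≤ φ i x)
    {b : ι → ℝ} (hb : ∀ i, b i = φ i (zM i) - φ i (zm i)) {t : ℝ} (ht : t = -∑ i, φ i (zm i))
    (hbpos : ∀ i, φ i ≠ 0 → 0 < b i) {N : ℕ} (hpat : HasPats b t N) :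
    ∃ T : Finset X, T.card ≤ N * ∏ i, h i ∧ K ⊆ ⋃ t ∈ T, (fun z => t + z) '' interior K := by
  have hmem : ∀ x, x ∈ K ↔ ∀ i, l i x ∈ C i := fun x => by rw [hK]; simp
  have hKconv : Convex ℝ K := by
    rw [hK]
    exact convex_iInter fun i => (hC i).affine_preimage (l i).toLinearMap.toAffineMap
  have hb0 : ∀ i, 0 ≤ b i := fun i => by
    rw [hb i]; exact sub_nonneg.2 (hMin i _ (hzM i))
  have hbzero : ∀ i, φ i = 0 → b i = 0 := fun i hi => by simp [hb, hi]
  have hsum : ∀ x, ∑ i, (φ i (l i x) - φ i (zm i)) = t := fun x => by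
    rw [Finset.sum_sub_distrib, hrel x, ht, zero_sub]
  -- the choice of `δ`
  set r : ℝ := (Fintype.card ι : ℝ) with hr
  have hr0 : 0 ≤ r := Nat.cast_nonneg _
  obtain ⟨δ, hδ, hδA, hδB, hδC⟩ : ∃ δ : ℝ, 0 < δ ∧
      (∀ S : Finset ι, ∑ i ∈ S, b i ≤ t + r * δ → ∑ i ∈ S, b i ≤ t) ∧
      (∀ S : Finset ι, t ≤ ∑ i ∈ S, b i + r * δ → t ≤ ∑ i ∈ S, b i) ∧
      ∀ i, φ i ≠ 0 → 2 * δ < b i := by
    have e1 : ∀ a : ℝ, 0 < a → ∀ᶠ δ : ℝ in 𝓝[>] 0, r * δ < a := fun a ha => by
      have hcont : Continuous fun δ : ℝ => r * δ := by fun_prop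
      have := hcont.continuousAt (x := (0 : ℝ)).eventually (Iio_mem_nhds (by simpa using ha))
      exact this.filter_mono nhdsWithin_le_nhds
    have e2 : ∀ a : ℝ, 0 < a → ∀ᶠ δ : ℝ in 𝓝[>] 0, 2 * δ < a := fun a ha => by
      have hcont : Continuous fun δ : ℝ => 2 * δ := by fun_prop
      have := hcont.continuousAt (x := (0 : ℝ)).eventually (Iio_mem_nhds (by simpa using ha))
      exact this.filter_mono nhdsWithin_le_nhds
    have eA : ∀ᶠ δ : ℝ in 𝓝[>] 0, ∀ S : Finset ι,
        ∑ i ∈ S, b i ≤ t + r * δ → ∑ i ∈ S, b i ≤ t := by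
      refine eventually_all.2 fun S => ?_
      by_cases hS : ∑ i ∈ S, b i ≤ t
      · exact Eventually.of_forall fun _ _ => hS
      · push Not at hS
        filter_upwards [e1 _ (sub_pos.2 hS)] with δ h1 h2
        linarith
    have eB : ∀ᶠ δ : ℝ in 𝓝[>] 0, ∀ S : Finset ι,
        t ≤ ∑ i ∈ S, b i + r * δ → t ≤ ∑ i ∈ S, b i := by
      refine eventually_all.2 fun S => ?_
      by_cases hS : t ≤ ∑ i ∈ S, b i
      · exact Eventually.of_forall fun _ _ => hS
      · push Not at hS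
        filter_upwards [e1 _ (sub_pos.2 hS)] with δ h1 h2
        linarith
    have eC : ∀ᶠ δ : ℝ in 𝓝[>] 0, ∀ i, φ i ≠ 0 → 2 * δ < b i := by
      refine eventually_all.2 fun i => ?_
      by_cases hi : φ i = 0
      · exact Eventually.of_forall fun _ h1 => absurd hi h1
      · filter_upwards [e2 _ (hbpos i hi)] with δ h1 _
        exact h1
    obtain ⟨δ, ⟨⟨h1, h2⟩, h3⟩, h4⟩ := (((eA.and eB).and eC).and
      (self_mem_nhdsWithin : Ioi (0 : ℝ) ∈ 𝓝[>] 0)).exists
    exact ⟨δ, h4, h1, h2, h3⟩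
  -- the directions of the factors
  have hfam : ∀ i, ∃ w : Bool → Fin (h i) → Y i,
      (φ i ≠ 0 → (∀ k, φ i (w false k) = 1) ∧ (∀ k, φ i (w true k) = -1) ∧
        (∀ x ∈ C i, φ i x + δ ≤ φ i (zM i) → ∃ k, Ill (C i) x (w false k)) ∧
        ∀ x ∈ C i, φ i (zm i) + δ ≤ φ i x → ∃ k, Ill (C i) x (w true k)) ∧
      (φ i = 0 → ∀ x ∈ C i, ∃ s k, Ill (C i) x (w s k)) := by
    intro i
    by_cases hi : φ i = 0
    · obtain ⟨w, hw⟩ := hall i
      exact ⟨w, fun h1 => absurd hi h1, fun _ => hw⟩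
    · obtain ⟨w1, h1, h2⟩ := hup i (φ i) hi δ hδ
      obtain ⟨w2, h3, h4⟩ := hup i (-φ i) (neg_ne_zero.2 hi) δ hδ
      refine ⟨fun s => if s then w2 else w1, fun _ => ⟨?_, ?_, ?_, ?_⟩, fun h1 => absurd h1 hi⟩
      · intro k; simpa using h1 k
      · intro k
        have := h3 k
        simp only [neg_apply] at this
        simp only [if_true]
        linarith
      · intro x hx hxz
        simpa using h2 x hx _ (hzM i) hxz
      · intro x hx hxz
        have := h4 x hx _ (hzm i) (by simp only [neg_apply]; linarith)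
        simpa using this
  choose w hw using hfam
  -- the patterns and the scales
  obtain ⟨D, hDc, hnc, hhit⟩ := hpat
  let N' : (ι → Bool) → Bool → ℝ := fun θ s =>
    ((Finset.univ.filter fun i => φ i ≠ 0 ∧ θ i = s).card : ℝ)
  have hφb : ∀ i, 0 < b i → φ i ≠ 0 := fun i hi h0 => by
    rw [hbzero i h0] at hi; exact lt_irrefl _ hi
  have hN : ∀ θ ∈ D, ∀ s, 0 < N' θ s := by
    intro θ hθ s
    obtain ⟨⟨i, hi, hi2⟩, ⟨j, hj, hj2⟩⟩ := hnc θ hθ
    have : (Finset.univ.filter fun i => φ i ≠ 0 ∧ θ i = s).Nonempty := by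
      cases s
      · exact ⟨j, by simp [hφb j hj, hj2]⟩
      · exact ⟨i, by simp [hφb i hi, hi2]⟩
    exact Nat.cast_pos.2 this.card_pos
  let y : (ι → Bool) → (∀ i, Fin (h i)) → ∀ i, Y i := fun θ k i =>
    N' θ (!(θ i)) • w i (θ i) (k i)
  have hy : ∀ θ k, ∑ i, φ i (y θ k i) = 0 := by
    intro θ k
    have h1 : ∀ i, φ i (y θ k i) =
        (if φ i ≠ 0 ∧ θ i = false then N' θ true else 0) -
        (if φ i ≠ 0 ∧ θ i = true then N' θ false else 0) := by
      intro i
      by_cases hi : φ i = 0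
      · simp [hi]
      · obtain ⟨h2, h3, -, -⟩ := (hw i).1 hi
        simp only [y, map_smul, smul_eq_mul]
        cases hpat : θ i
        · simp [hi, h2]
        · simp [hi, h3]
    rw [Finset.sum_congr rfl fun i _ => h1 i, Finset.sum_sub_distrib, ← Finset.sum_filter,
      ← Finset.sum_filter, Finset.sum_const, Finset.sum_const, nsmul_eq_mul, nsmul_eq_mul]
    simp only [N']
    ring
  choose v hv using fun θ k => hex (y θ k) (hy θ k)
  -- the covering
  have hfin := cover hKconv hKc (ι := D × (∀ i, Fin (h i)))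
    (fun a => v a.1.1 a.2) (by
      intro x hx
      have hxC := (hmem x).1 hx
      let U : ι → Prop := fun i => (φ i ≠ 0 ∧ φ i (zM i) < φ i (l i x) + δ) ∨
        (φ i = 0 ∧ ¬ ∃ k, Ill (C i) (l i x) (w i false k))
      let L : ι → Prop := fun i => (φ i ≠ 0 ∧ φ i (l i x) < φ i (zm i) + δ) ∨
        (φ i = 0 ∧ ∃ k, Ill (C i) (l i x) (w i false k))
      have hbound : ∀ S : Finset ι, ∑ i ∈ S, δ ≤ r * δ := fun S => by
        rw [Finset.sum_const, nsmul_eq_mul]
        exact mul_le_mul_of_nonneg_right (Nat.cast_le.2 (Finset.card_le_univ S)) hδ.le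
      have hterm : ∀ i, 0 ≤ φ i (l i x) - φ i (zm i) := fun i => sub_nonneg.2 (hMin i _ (hxC i))
      obtain ⟨θ, hθ, hσ1, hσ2⟩ := hhit U L
        (by
          rintro i (⟨h1, h2⟩ | ⟨h1, h2⟩) (⟨h3, h4⟩ | ⟨h3, h4⟩)
          · have := hδC i h1
            rw [hb i] at this
            linarith
          · exact h1 h3
          · exact h3 h1
          · exact h2 h4)
        (by
          intro S hS
          apply hδA
          have h1 : ∑ i ∈ S, b i ≤ ∑ i ∈ S, ((φ i (l i x) - φ i (zm i)) + δ) := by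
            refine Finset.sum_le_sum fun i hi => ?_
            rcases (hS i).1 hi with ⟨h1, h2⟩ | ⟨h1, h2⟩
            · rw [hb i]; linarith
            · rw [hbzero i h1]
              have := hterm i
              linarith
          rw [Finset.sum_add_distrib] at h1
          have h2 : ∑ i ∈ S, (φ i (l i x) - φ i (zm i)) ≤ t := by
            rw [← hsum x]
            exact Finset.sum_le_sum_of_subset_of_nonneg (Finset.subset_univ _)
              fun i _ _ => hterm i
          linarith [hbound S])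
        (by
          intro S hS
          apply hδB
          have h1 : t = ∑ i ∈ S, (φ i (l i x) - φ i (zm i)) +
              ∑ i ∈ Sᶜ, (φ i (l i x) - φ i (zm i)) := by
            rw [← hsum x, Finset.sum_add_sum_compl]
          have h2 : ∑ i ∈ S, (φ i (l i x) - φ i (zm i)) ≤ ∑ i ∈ S, b i := by
            refine Finset.sum_le_sum fun i _ => ?_
            have := hMax i _ (hxC i)
            rw [hb i]
            linarith
          have h3 : ∑ i ∈ Sᶜ, (φ i (l i x) - φ i (zm i)) ≤ ∑ i ∈ Sᶜ, δ := by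
            refine Finset.sum_le_sum fun i hi => ?_
            have hLi : L i := by
              by_contra h4
              exact (Finset.mem_compl.1 hi) ((hS i).2 h4)
            rcases hLi with ⟨h4, h5⟩ | ⟨h4, h5⟩
            · linarith
            · simp only [h4, zero_apply, sub_zero]
              exact hδ.le
          linarith [hbound Sᶜ])
      have hk : ∀ i, ∃ k, Ill (C i) (l i x) (w i (θ i) k) := by
        intro i
        by_cases hi : φ i = 0
        · by_cases hf : ∃ k, Ill (C i) (l i x) (w i false k)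
          · rw [hσ2 i (Or.inr ⟨hi, hf⟩)]
            exact hf
          · rw [hσ1 i (Or.inr ⟨hi, hf⟩)]
            obtain ⟨s, k, hsk⟩ := (hw i).2 hi (l i x) (hxC i)
            cases s
            · exact absurd ⟨k, hsk⟩ hf
            · exact ⟨k, hsk⟩
        · obtain ⟨-, -, h3, h4⟩ := (hw i).1 hi
          cases hpat : θ i
          · apply h3 _ (hxC i)
            by_contra h5
            push Not at h5
            have := hσ1 i (Or.inl ⟨hi, h5⟩)
            rw [hpat] at this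
            exact Bool.false_ne_true this
          · apply h4 _ (hxC i)
            by_contra h5
            push Not at h5
            have := hσ2 i (Or.inl ⟨hi, h5⟩)
            rw [hpat] at this
            exact Bool.false_ne_true this.symm
      choose k hk using hk
      refine ⟨(⟨θ, hθ⟩, k), ?_⟩
      have hill : ∀ i, Ill (C i) (l i x) (y θ k i) := fun i => (hk i).smul (hN θ hθ _)
      choose ε he hε using hill
      obtain ⟨η, hη, hηe⟩ : ∃ η : ℝ, 0 < η ∧ ∀ i, η ≤ ε i := by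
        have h1 : ∀ᶠ η : ℝ in 𝓝[>] 0, ∀ i, η ≤ ε i := eventually_all.2 fun i =>
          (eventually_le_nhds (he i)).filter_mono nhdsWithin_le_nhds
        obtain ⟨η, h2, h3⟩ := (h1.and (self_mem_nhdsWithin : Ioi (0 : ℝ) ∈ 𝓝[>] 0)).exists
        exact ⟨η, h3, h2⟩
      refine ⟨η, hη, ?_⟩
      have hop : IsOpen (⋂ i, l i ⁻¹' interior (C i)) :=
        isOpen_iInter_of_finite fun i => isOpen_interior.preimage (l i).continuous
      have hsub : (⋂ i, l i ⁻¹' interior (C i)) ⊆ K := by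
        rw [hK]
        exact iInter_mono fun i => preimage_mono interior_subset
      refine interior_maximal hsub hop ?_
      simp only [mem_iInter, mem_preimage, map_add, map_smul]
      intro i
      rw [hv θ k i]
      exact Ill.mono (hC i) (hxC i) (hε i) hη (hηe i))
  obtain ⟨T, hT, hcov⟩ := hfin
  refine ⟨T, hT.trans ?_, hcov⟩
  rw [Fintype.card_prod, Fintype.card_coe, Fintype.card_pi]
  simp only [Fintype.card_fin]
  exact Nat.mul_le_mul_right _ hDc

/-- the data of the relation -/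
theorem data (l : ∀ i, X →L[ℝ] Y i) (hl : ∀ i, Function.Surjective (l i))
    (hdim : ∑ i, Module.finrank ℝ (Y i) = Module.finrank ℝ X + 1)
    (C : ∀ i, Set (Y i)) (hc : ∀ i, IsCompact (C i))
    {K : Set X} (hK : K = ⋂ i, l i ⁻¹' C i) (hKc : IsCompact K) (hKint : (interior K).Nonempty) :
    ∃ φ : ∀ i, Y i →L[ℝ] ℝ, ∃ zM zm : ∀ i, Y i, (∀ v, ∑ i, φ i (l i v) = 0) ∧
      (∀ y : ∀ i, Y i, ∑ i, φ i (y i) = 0 → ∃ v, ∀ i, l i v = y i) ∧
      (∀ i, zM i ∈ C i) ∧ (∀ i, ∀ x ∈ C i, φ i x ≤ φ i (zM i)) ∧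
      (∀ i, zm i ∈ C i) ∧ (∀ i, ∀ x ∈ C i, φ i (zm i) ≤ φ i x) ∧
      (∀ i, φ i ≠ 0 → 0 < φ i (zM i) - φ i (zm i)) ∧ 0 < -∑ i, φ i (zm i) ∧
      -∑ i, φ i (zm i) < ∑ i, (φ i (zM i) - φ i (zm i)) ∧
      ∃ p q, q ≠ p ∧ φ p ≠ 0 ∧ φ q ≠ 0 := by
  obtain ⟨x0, hx0⟩ := hKint
  have hx0K : x0 ∈ K := interior_subset hx0
  have hmem : ∀ x, x ∈ K ↔ ∀ i, l i x ∈ C i := fun x => by rw [hK]; simp
  -- the components
  have hinj : ∀ v, (∀ i, l i v = 0) → v = 0 := fun v hv =>
    eq_zero_of_bounded hKc (x0 := x0) fun s => by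
      rw [hmem]
      intro i
      rw [map_add, map_smul, hv i, smul_zero, add_zero]
      exact (hmem x0).1 hx0K i
  obtain ⟨φ, ⟨p, hp⟩, hrel, hex⟩ := exists_relation l hinj hdim
  -- interior points
  have hint : ∀ i, l i x0 ∈ interior (C i) := by
    intro i
    have : CompleteSpace X := FiniteDimensional.complete ℝ X
    have : CompleteSpace (Y i) := FiniteDimensional.complete ℝ (Y i)
    have hop : IsOpen (l i '' interior K) := (l i).isOpenMap (hl i) _ isOpen_interior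
    have hsub : l i '' interior K ⊆ C i := by
      rintro _ ⟨x, hx, rfl⟩
      exact (hmem x).1 (interior_subset hx) i
    exact interior_maximal hsub hop ⟨x0, hx0, rfl⟩
  have hne : ∀ i, (C i).Nonempty := fun i => ⟨_, interior_subset (hint i)⟩
  -- maxima and minima
  have hM : ∀ i, ∃ z ∈ C i, ∀ x ∈ C i, φ i x ≤ φ i z := fun i => by
    obtain ⟨z, hz, hz2⟩ := (hc i).exists_isMaxOn (hne i) (φ i).continuous.continuousOn
    exact ⟨z, hz, fun x hx => hz2 hx⟩
  have hm : ∀ i, ∃ z ∈ C i, ∀ x ∈ C i, φ i z ≤ φ i x := fun i => by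
    obtain ⟨z, hz, hz2⟩ := (hc i).exists_isMinOn (hne i) (φ i).continuous.continuousOn
    exact ⟨z, hz, fun x hx => hz2 hx⟩
  choose zM hzM hMax using hM
  choose zm hzm hMin using hm
  have hlow : ∀ i, φ i ≠ 0 → φ i (zm i) < φ i (l i x0) := fun i hi => by
    have h1 : -φ i ≠ 0 := neg_ne_zero.2 hi
    have h2 := lt_of_mem_interior h1 (m := -φ i (zm i))
      (fun c hc' => by simpa using hMin i c hc') (hint i)
    simpa using h2
  have hhigh : ∀ i, φ i ≠ 0 → φ i (l i x0) < φ i (zM i) := fun i hi =>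
    lt_of_mem_interior hi (fun c hc' => hMax i c hc') (hint i)
  have hsum : ∀ x, ∑ i, (φ i (l i x) - φ i (zm i)) = -∑ i, φ i (zm i) := fun x => by
    rw [Finset.sum_sub_distrib, hrel x, zero_sub]
  refine ⟨φ, zM, zm, hrel, hex, hzM, hMax, hzm, hMin, fun i hi => ?_, ?_, ?_, ?_⟩
  · linarith [hlow i hi, hhigh i hi]
  · rw [← hsum x0]
    exact Finset.sum_pos' (fun i _ => sub_nonneg.2 (hMin i _ (interior_subset (hint i))))
      ⟨p, Finset.mem_univ _, sub_pos.2 (hlow p hp)⟩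
  · rw [← hsum x0]
    refine Finset.sum_lt_sum (fun i _ => ?_) ⟨p, Finset.mem_univ _, ?_⟩
    · have := hMax i _ (interior_subset (hint i))
      linarith
    · have := hhigh p hp
      linarith
  · refine ⟨p, ?_⟩
    by_contra hcon
    push Not at hcon
    have hz : ∀ q, q ≠ p → φ q = 0 := fun q hqp => hcon q hqp hp
    apply hp
    ext y
    obtain ⟨v, rfl⟩ := hl p y
    have h1 := hrel v
    rw [Finset.sum_eq_single p (fun q _ hqp => by rw [hz q hqp]; rfl) (by simp)] at h1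
    simpa using h1

open Classical in
/-- the general theorem, for bodies with enough upward directions -/
theorem main (l : ∀ i, X →L[ℝ] Y i) (hl : ∀ i, Function.Surjective (l i))
    (hdim : ∑ i, Module.finrank ℝ (Y i) = Module.finrank ℝ X + 1)
    (C : ∀ i, Set (Y i)) (hC : ∀ i, Convex ℝ (C i)) (hc : ∀ i, IsCompact (C i)) (h : ι → ℕ)
    (hup : ∀ i (φ : Y i →L[ℝ] ℝ), φ ≠ 0 → Up (C i) φ (h i)) (hall : ∀ i, All (C i) (h i))
    {K : Set X} (hK : K = ⋂ i, l i ⁻¹' C i) (hKc : IsCompact K) (hKint : (interior K).Nonempty) :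
    ∃ T : Finset X, T.card ≤ 2 ^ (Fintype.card ι - 1) * ∏ i, h i ∧
      K ⊆ ⋃ t ∈ T, (fun z => t + z) '' interior K := by
  obtain ⟨φ, zM, zm, hrel, hex, hzM, hMax, hzm, hMin, hpos, ht, ht', p, q, hqp, hp, hq⟩ :=
    data l hl hdim C hc hK hKc hKint
  refine core l C hC h hup hall hK hKc hrel hex hzM hMax hzm hMin (fun i => rfl) rfl hpos ?_
  exact hasPats (fun i => sub_nonneg.2 (hMin i _ (hzM i))) (hpos p hp) ht ht' ⟨q, hqp, hpos q hq⟩

end

end Pool.Agent.J4H45.HC
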