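import Pool.Agent.J4H45.HC.Final

/-!
# Intersections of `d + 1` slabs, with the case of equality
-/

set_option autoImplicit false

open Set
open scoped RealInnerProductSpace

namespace Pool.Agent.J4H45.HC

/-- the intersection of the slabs `α i ≤ ⟪a i, x⟫ ≤ β i` -/
def Slabs {d m : ℕ} (a : Fin m → E d) (α β : Fin m → ℝ) : Set (E d) :=
  {x | ∀ i, α i ≤ ⟪a i, x⟫ ∧ ⟪a i, x⟫ ≤ β i}

/-- `K` is a parallelotope: an intersection of `d` slabs with linearly independent normals -/
def Parallelotope {d : ℕ} (K : Set (E d)) : Prop :=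
  ∃ (u : Fin d → E d) (α β : Fin d → ℝ), LinearIndependent ℝ u ∧ K = Slabs u α β

theorem icc_hull {α β : ℝ} (h : α ≤ β) : Icc α β = convexHull ℝ (range ![α, β]) := by
  have : range ![α, β] = {α, β} := by
    ext x
    simp only [mem_range, Fin.exists_fin_two, Matrix.cons_val_zero, Matrix.cons_val_one,
      mem_insert_iff, mem_singleton_iff]
    constructor
    · rintro (h1 | h1)
      · exact Or.inl h1.symm
      · exact Or.inr h1.symm
    · rintro (h1 | h1)
      · exact Or.inl h1.symm
      · exact Or.inr h1.symm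
  rw [this, convexHull_pair, segment_eq_Icc h]

theorem mem_icc_of {α β : ℝ} {φ : ℝ →L[ℝ] ℝ} (hφ : φ ≠ 0) {zm zM s : ℝ}
    (h1 : zm ∈ Icc α β) (h2 : ∀ x ∈ Icc α β, φ zm ≤ φ x) (h3 : zM ∈ Icc α β)
    (h4 : ∀ x ∈ Icc α β, φ x ≤ φ zM) (h5 : φ zm ≤ φ s) (h6 : φ s ≤ φ zM) : s ∈ Icc α β := by
  have hlin : ∀ x : ℝ, φ x = φ 1 * x := fun x => by
    have : φ x = φ (x • (1 : ℝ)) := by simp
    rw [this, map_smul, smul_eq_mul, mul_comm]
  have hne : φ 1 ≠ 0 := fun h => hφ (by ext; simpa using h)
  have hαβ : α ≤ β := h1.1.trans h1.2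
  have h7 := h2 α ⟨le_rfl, hαβ⟩
  have h8 := h2 β ⟨hαβ, le_rfl⟩
  have h9 := h4 α ⟨le_rfl, hαβ⟩
  have h10 := h4 β ⟨hαβ, le_rfl⟩
  rw [hlin zm, hlin α] at h7
  rw [hlin zm, hlin β] at h8
  rw [hlin zM, hlin α] at h9
  rw [hlin zM, hlin β] at h10
  rw [hlin zm, hlin s] at h5
  rw [hlin zM, hlin s] at h6
  rcases lt_or_gt_of_ne hne with h | h
  · constructor
    · by_contra hc
      push Not at hc
      nlinarith [mul_lt_mul_of_neg_left hc h, mul_le_mul_of_nonpos_left h3.1 h.le]
    · by_contra hc
      push Not at hc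
      nlinarith [mul_lt_mul_of_neg_left hc h, mul_le_mul_of_nonpos_left h1.2 h.le]
  · constructor
    · by_contra hc
      push Not at hc
      nlinarith [mul_lt_mul_of_pos_left hc h, mul_le_mul_of_nonneg_left h1.1 h.le]
    · by_contra hc
      push Not at hc
      nlinarith [mul_lt_mul_of_pos_left hc h, mul_le_mul_of_nonneg_left h3.2 h.le]

theorem slabs {d : ℕ} (a : Fin (d + 1) → E d) (ha : ∀ i, a i ≠ 0) (α β : Fin (d + 1) → ℝ)
    (hKc : IsCompact (Slabs a α β)) (hKi : (interior (Slabs a α β)).Nonempty) :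
    CoveredBy (Slabs a α β) (2 ^ d) ∧
      (Parallelotope (Slabs a α β) ∨ CoveredBy (Slabs a α β) (2 ^ d - 1)) := by
  classical
  set K := Slabs a α β with hKdef
  let l : Fin (d + 1) → E d →L[ℝ] ℝ := fun i => innerSL ℝ (a i)
  have hlv : ∀ i x, l i x = ⟪a i, x⟫ := fun i x => rfl
  have hl : ∀ i, Function.Surjective (l i) := fun i s => by
    have h1 : ⟪a i, a i⟫ ≠ 0 := inner_self_ne_zero.2 (ha i)
    refine ⟨(s / ⟪a i, a i⟫) • a i, ?_⟩
    rw [hlv, inner_smul_right, div_mul_cancel₀ _ h1]
  let C : Fin (d + 1) → Set ℝ := fun i => Icc (α i) (β i)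
  have hK : K = ⋂ i, l i ⁻¹' C i := by
    ext x
    simp only [hKdef, Slabs, mem_iInter, mem_preimage]
    rfl
  have hlt : ∀ i, (interior (C i)).Nonempty := by
    intro i
    obtain ⟨x0, hx0⟩ := hKi
    have hop : IsOpen (l i '' interior K) := (l i).isOpenMap (hl i) _ isOpen_interior
    have hsub : l i '' interior K ⊆ C i := by
      rintro _ ⟨x, hx, rfl⟩
      have := interior_subset hx
      rw [hK] at this
      exact mem_iInter.1 this i
    exact ⟨_, interior_maximal hsub hop ⟨x0, hx0, rfl⟩⟩
  have hle : ∀ i, α i ≤ β i := fun i => by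
    obtain ⟨z, hz⟩ := hlt i
    have := interior_subset hz
    exact this.1.trans this.2
  have hhull : ∀ i, C i = convexHull ℝ (range ![α i, β i]) := fun i => icc_hull (hle i)
  have hup : ∀ i (φ : ℝ →L[ℝ] ℝ), φ ≠ 0 → Up (C i) φ 1 := fun i φ hφ => by
    have h1 := hlt i
    rw [hhull i] at h1 ⊢
    exact up_of_hull _ h1 hφ
  have hall : ∀ i, All (C i) 1 := fun i => by
    have h1 := hlt i
    rw [hhull i] at h1 ⊢
    exact all_of_hull one_pos _ h1
  have hdim : ∑ _i : Fin (d + 1), Module.finrank ℝ ℝ = Module.finrank ℝ (E d) + 1 := by simp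
  obtain ⟨φ, zM, zm, hrel, hex, hzM, hMax, hzm, hMin, hpos, ht, ht', p0, q0, hqp0, hp0, hq0⟩ :=
    data l hl hdim C (fun i => isCompact_Icc) hK hKc hKi
  have hcore := fun (N : ℕ) => core l C (fun i => convex_Icc _ _) (fun _ => 1) hup hall hK hKc hrel
    hex hzM hMax hzm hMin (b := fun i => φ i (zM i) - φ i (zm i)) (fun i => rfl)
    (t := -∑ i, φ i (zm i)) rfl hpos (N := N)
  set b : Fin (d + 1) → ℝ := fun i => φ i (zM i) - φ i (zm i) with hb
  set t : ℝ := -∑ i, φ i (zm i) with htdef
  have hb0 : ∀ i, 0 ≤ b i := fun i => sub_nonneg.2 (hMin i _ (hzM i))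
  have hbzero : ∀ i, φ i = 0 → b i = 0 := fun i hi => by simp [hb, hi]
  have hbφ : ∀ i, 0 < b i → φ i ≠ 0 := fun i hi h0 => by
    rw [hbzero i h0] at hi; exact lt_irrefl _ hi
  have hcov : ∀ N, HasPats b t N → CoveredBy K N := by
    intro N hN
    obtain ⟨T, hT, hc⟩ := hcore N hN
    exact ⟨T, by simpa using hT, hc⟩
  refine ⟨hcov _ ?_, ?_⟩
  · have := hasPats (b := b) (t := t) (p := p0) hb0 (hpos p0 hp0) ht ht' ⟨q0, hqp0, hpos q0 hq0⟩
    simpa using this
  -- linear independence of the normals without `j`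
  have hlin1 : ∀ i (s : ℝ), φ i s = φ i 1 * s := fun i s => by
    have : φ i s = φ i (s • (1 : ℝ)) := by simp
    rw [this, map_smul, smul_eq_mul, mul_comm]
  have hφ1 : ∀ i, φ i ≠ 0 → φ i 1 ≠ 0 := fun i hi h => hi (by ext; simpa using h)
  have hindep : ∀ j, φ j ≠ 0 → LinearIndependent ℝ fun i : Fin d => a (j.succAbove i) := by
    intro j hj
    rw [Fintype.linearIndependent_iff]
    intro g hg i
    have hj1 := hφ1 j hj
    obtain ⟨v, hv⟩ := hex (fun k => if k = j.succAbove i then 1 else
      if k = j then -(φ (j.succAbove i) 1 / φ j 1) else 0) (by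
        rw [Fin.sum_univ_succAbove _ j]
        have hne : j ≠ j.succAbove i := (Fin.succAbove_ne j i).symm
        rw [if_neg hne, if_pos rfl, hlin1 j]
        have h1 : ∀ k : Fin d, φ (j.succAbove k) (if j.succAbove k = j.succAbove i then 1 else
            if j.succAbove k = j then -(φ (j.succAbove i) 1 / φ j 1) else 0) =
            if k = i then φ (j.succAbove i) 1 else 0 := by
          intro k
          by_cases hk : k = i
          · subst hk; simp
          · simp [hk, Fin.succAbove_ne]
        rw [Finset.sum_congr rfl fun k _ => h1 k]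
        simp only [Finset.sum_ite_eq', Finset.mem_univ, if_true]
        field_simp
        ring)
    have h2 : ⟪∑ k, g k • a (j.succAbove k), v⟫ = g i := by
      rw [sum_inner]
      have h3 : ∀ k : Fin d, ⟪g k • a (j.succAbove k), v⟫ = if k = i then g i else 0 := by
        intro k
        rw [real_inner_smul_left, ← hlv, hv]
        by_cases hk : k = i
        · subst hk; simp
        · simp [hk, Fin.succAbove_ne]
      rw [Finset.sum_congr rfl fun k _ => h3 k]
      simp
    rw [hg, inner_zero_left] at h2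
    exact h2.symm
  -- the largest coordinate
  obtain ⟨p, hp⟩ : ∃ p, ∀ i, b i ≤ b p := Finite.exists_max b
  have hbp : 0 < b p := (hpos p0 hp0).trans_le (hp p0)
  by_cases hthree : ∃ q q', q ≠ p ∧ q' ≠ p ∧ q ≠ q' ∧ 0 < b q ∧ 0 < b q'
  · by_cases hA1 : t < ∑ i ∈ Finset.univ.filter (fun i => i ≠ p), b i
    · right
      have := hasPats_lt hb0 hp ht hA1 hthree
      exact hcov _ (by simpa using this)
    have hsplit : ∑ i, b i = ∑ i ∈ Finset.univ.filter (fun i => i ≠ p), b i + b p := by
      have := sum_split b p (fun _ => True) trivial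
      simpa using this
    by_cases hA2 : b p < t
    · right
      have := hasPats_lt (t := ∑ i, b i - t) hb0 hp (by linarith) (by linarith) hthree
      exact hcov _ (by simpa using this.mirror)
    push Not at hA1 hA2
    left
    refine ⟨fun i => a (p.succAbove i), fun i => α (p.succAbove i), fun i => β (p.succAbove i),
      hindep p (hbφ p hbp), ?_⟩
    ext x
    constructor
    · exact fun hx i => hx _
    · intro hx
      have hx' : ∀ i, i ≠ p → l i x ∈ C i := fun i hi => by
        obtain ⟨k, rfl⟩ := Fin.exists_succAbove_eq hi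
        exact hx k
      have hxp : l p x ∈ C p := by
        have hsum : ∑ i ∈ Finset.univ.filter (fun i => i ≠ p), (φ i (l i x) - φ i (zm i)) +
            (φ p (l p x) - φ p (zm p)) = t := by
          have h1 := sum_split (fun i => φ i (l i x) - φ i (zm i)) p (fun _ => True) trivial
          simp only [Finset.filter_true, true_and] at h1
          rw [← h1, Finset.sum_sub_distrib, hrel x, zero_sub]
        have hlo : 0 ≤ ∑ i ∈ Finset.univ.filter (fun i => i ≠ p), (φ i (l i x) - φ i (zm i)) :=
          Finset.sum_nonneg fun i hi => sub_nonneg.2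
            (hMin i _ (hx' i (Finset.mem_filter.1 hi).2))
        have hhi : ∑ i ∈ Finset.univ.filter (fun i => i ≠ p), (φ i (l i x) - φ i (zm i)) ≤
            ∑ i ∈ Finset.univ.filter (fun i => i ≠ p), b i :=
          Finset.sum_le_sum fun i hi => by
            have := hMax i _ (hx' i (Finset.mem_filter.1 hi).2)
            simp only [hb]
            linarith
        refine mem_icc_of (hbφ p hbp) (hzm p) (hMin p) (hzM p) (hMax p) (by linarith) ?_
        have : b p = φ p (zM p) - φ p (zm p) := rfl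
        linarith
      intro i
      by_cases hi : i = p
      · subst hi; exact hxp
      · exact hx' i hi
  · -- only two slabs are in the relation
    left
    obtain ⟨q, hqp, hq⟩ : ∃ q, q ≠ p ∧ 0 < b q := by
      by_cases h : p0 = p
      · exact ⟨q0, by rw [← h]; exact hqp0, hpos q0 hq0⟩
      · exact ⟨p0, h, hpos p0 hp0⟩
    have hzero : ∀ i, i ≠ p → i ≠ q → φ i = 0 := by
      intro i hip hiq
      by_contra h
      exact hthree ⟨q, i, hqp, hip, Ne.symm hiq, hq, hpos i h⟩
    have hφp := hφ1 p (hbφ p hbp)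
    have hφq := hφ1 q (hbφ q hq)
    have hprop : ∀ x, ⟪a q, x⟫ = -(φ p 1 / φ q 1) * ⟪a p, x⟫ := by
      intro x
      have h1 := hrel x
      rw [Fin.sum_univ_succAbove _ q] at h1
      obtain ⟨k0, hk0⟩ := Fin.exists_succAbove_eq (Ne.symm hqp : p ≠ q)
      rw [Finset.sum_eq_single k0 (fun k _ hk => by
        have h2 : q.succAbove k ≠ p := fun h3 => hk (Fin.succAbove_right_injective (h3.trans hk0.symm))
        rw [hzero _ h2 (Fin.succAbove_ne q k)]; rfl) (by simp), hk0, hlin1 q, hlin1 p, hlv, hlv]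
        at h1
      field_simp
      linarith
    set c : ℝ := -(φ p 1 / φ q 1) with hc
    have hc0 : c ≠ 0 := neg_ne_zero.2 (div_ne_zero hφp hφq)
    let lo : ℝ := if 0 < c then α q / c else β q / c
    let hi : ℝ := if 0 < c then β q / c else α q / c
    have hiff : ∀ s : ℝ, (α q ≤ c * s ∧ c * s ≤ β q) ↔ (lo ≤ s ∧ s ≤ hi) := by
      intro s
      rcases lt_or_gt_of_ne hc0 with h | h
      · simp only [lo, hi, if_neg (not_lt.2 h.le)]
        rw [div_le_iff_of_neg' h, le_div_iff_of_neg' h]
        exact and_comm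
      · simp only [lo, hi, if_pos h]
        rw [div_le_iff₀' h, le_div_iff₀' h]
    refine ⟨fun i => a (q.succAbove i),
      fun i => if q.succAbove i = p then max (α p) lo else α (q.succAbove i),
      fun i => if q.succAbove i = p then min (β p) hi else β (q.succAbove i),
      hindep q (hbφ q hq), ?_⟩
    ext x
    constructor
    · intro hx i
      by_cases h : q.succAbove i = p
      · simp only [h, if_true]
        have h1 := hx p
        have h2 := hx q
        rw [hprop x, hiff] at h2
        exact ⟨max_le h1.1 h2.1, le_min h1.2 h2.2⟩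
      · simp only [h, if_false]
        exact hx _
    · intro hx
      have hxp : (α p ≤ ⟪a p, x⟫ ∧ ⟪a p, x⟫ ≤ β p) ∧ (lo ≤ ⟪a p, x⟫ ∧ ⟪a p, x⟫ ≤ hi) := by
        obtain ⟨k0, hk0⟩ := Fin.exists_succAbove_eq (Ne.symm hqp : p ≠ q)
        have h1 := hx k0
        simp only [hk0, if_true] at h1
        exact ⟨⟨(le_max_left _ _).trans h1.1, h1.2.trans (min_le_left _ _)⟩,
          ⟨(le_max_right _ _).trans h1.1, h1.2.trans (min_le_right _ _)⟩⟩
      intro i
      by_cases h1 : i = q
      · subst h1
        rw [hprop x, hiff]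
        exact hxp.2
      · by_cases h2 : i = p
        · subst h2
          exact hxp.1
        · obtain ⟨k, rfl⟩ := Fin.exists_succAbove_eq h1
          have h3 := hx k
          simp only [h2, if_false] at h3
          exact h3

end Pool.Agent.J4H45.HC
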